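import Pool.Agent.V8H2.MG.Up

/-!
The arguments at which one more element has no small prime factor; general form.
-/

set_option autoImplicit false

namespace Pool.Agent.V8H2.MG

open Finset Filter
open Pool.Agent.TH423.SH (PS)
open Pool.Agent.Y677.RSZ (rt Sys rhoT)
open Pool.Agent.Y852.RSZ (OmC card_one_le per_dvd)
open Pool.Agent.V8H2.QW (GG GG_pos GG_le fac_pos)
open Pool.Agent.V8H2.MQ

section
variable {g : ℕ} {F D : ℤ → ℤ} (hD : Dat g F D)
include hD

theorem sum_all (hg : 1 ≤ g) (m : ℕ) : ∃ A : ℝ, 0 < A ∧ ∀ (W b X : ℕ) (t : Fin m → ℕ), 1 ≤ X →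
    (∀ i, W * t i < X) → ∀ J : Finset ℕ, (∀ j ∈ J, j < X ∧ ∀ i, j ≠ W * t i) →
    ∑ j ∈ J, ∏ i, Gm (2 * g : ℕ) (ee D W b t (b + j) i) ≤ A * X := by
  classical
  rcases Nat.eq_zero_or_pos m with hm | hm
  · subst hm
    refine ⟨1, one_pos, fun W b X t _ _ J hJ => ?_⟩
    simp only [univ_eq_empty, prod_empty, sum_const, nsmul_eq_mul, mul_one, one_mul]
    have h1 : J ⊆ range X := fun j hj => mem_range.2 (hJ j hj).1
    have h2 := card_le_card h1
    rw [card_range] at h2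
    exact_mod_cast h2
  obtain ⟨A, hA, hav⟩ := hD.av ((1 + ((2 * g : ℕ) : ℝ)) ^ m) (by positivity)
  refine ⟨m * A, by positivity, fun W b X t hX ht J hJ => ?_⟩
  have hg0 : (0 : ℝ) < ((2 * g : ℕ) : ℝ) := by
    have : 0 < 2 * g := by omega
    exact_mod_cast this
  have h1 : ∀ j ∈ J, ∏ i, Gm (2 * g : ℕ) (ee D W b t (b + j) i) ≤
      ∑ i, Gm ((1 + ((2 * g : ℕ) : ℝ)) ^ m) (ee D W b t (b + j) i) := by
    intro j _
    have h2 := prod_le_sum (ι := Fin m) ⟨⟨0, hm⟩⟩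
      (fun i => Gm (2 * g : ℕ) (ee D W b t (b + j) i)) (fun i => Gm_one _ hg0.le _)
    refine h2.trans ?_
    rw [Fintype.card_fin]
    exact sum_le_sum fun i _ => Gm_pow _ hg0 m _
  refine (sum_le_sum h1).trans ?_
  rw [sum_comm]
  have h3 : ∀ i : Fin m, ∑ j ∈ J, Gm ((1 + ((2 * g : ℕ) : ℝ)) ^ m) (ee D W b t (b + j) i) ≤ A * X := by
    intro i
    have e1 : ∀ j : ℕ, ee D W b t (b + j) i = (D (((W * t i : ℕ) : ℤ) - (j : ℤ))).natAbs := by
      intro j
      unfold ee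
      congr 2
      push_cast
      ring
    simp only [e1]
    have h4 := hav X ((W * t i : ℕ) : ℤ) hX (by
      rw [abs_of_nonneg (Int.natCast_nonneg _)]
      exact_mod_cast (ht i).le)
    refine le_trans ?_ h4
    apply sum_le_sum_of_subset_of_nonneg
    · intro j hj
      obtain ⟨g1, g2⟩ := hJ j hj
      rw [mem_filter, mem_range]
      refine ⟨g1, fun h => g2 i ?_⟩
      have : ((W * t i : ℕ) : ℤ) = (j : ℤ) := by linarith
      exact_mod_cast this.symm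
    · intro j _ _
      exact le_trans zero_le_one (Gm_one _ (by positivity) _)
  calc ∑ i : Fin m, ∑ j ∈ J, Gm ((1 + ((2 * g : ℕ) : ℝ)) ^ m) (ee D W b t (b + j) i)
      ≤ ∑ _i : Fin m, A * X := sum_le_sum fun i _ => h3 i
    _ = _ := by
        rw [sum_const, card_univ, Fintype.card_fin, nsmul_eq_mul]
        ring

theorem mod_OmB (W b : ℕ) {m : ℕ} (t : Fin m → ℕ) (β p x : ℕ) (hp : p.Prime)
    (h1 : ∀ i, ¬ (p : ℤ) ∣ F ((W * (x + t i) + b : ℕ) : ℤ))
    (h2 : ¬ (p : ℤ) ∣ F ((W * x + β : ℕ) : ℤ)) : x % p ∉ OmB F W b t β p := by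
  classical
  have hx : (p : ℤ) ∣ (x : ℤ) - ((x % p : ℕ) : ℤ) := by
    have h3 := Nat.div_add_mod x p
    refine ⟨((x / p : ℕ) : ℤ), ?_⟩
    have h4 : (x : ℤ) = p * ((x / p : ℕ) : ℤ) + ((x % p : ℕ) : ℤ) := by exact_mod_cast h3.symm
    linarith
  unfold OmB OmC R1
  rw [mem_union, mem_filter, mem_filter]
  rintro (⟨_, i, hi⟩ | ⟨_, hj⟩)
  · apply h1 i
    refine (per_dvd (hD.sys.per p hp) ?_).2 hi
    have e : ((W * (x + t i) + b : ℕ) : ℤ) - ((W * (x % p + t i) + b : ℕ) : ℤ) =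
        ((x : ℤ) - ((x % p : ℕ) : ℤ)) * W := by
      push_cast
      ring
    rw [e]
    exact hx.mul_right _
  · apply h2
    refine (per_dvd (hD.sys.per p hp) ?_).2 hj
    have e : ((W * x + β : ℕ) : ℤ) - ((W * (x % p) + β : ℕ) : ℤ) =
        ((x : ℤ) - ((x % p : ℕ) : ℤ)) * W := by
      push_cast
      ring
    rw [e]
    exact hx.mul_right _

end

open Classical in
/-- the arguments with one more element -/
noncomputable def BadS (F : ℤ → ℤ) (W b z X M L : ℕ) {m : ℕ} (t : Fin m → ℕ) : Finset ℕ :=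
  (Ioc M (M + L)).filter (fun x =>
    (∀ p ∈ PS W z, ∀ i, ¬ (p : ℤ) ∣ F ((W * (x + t i) + b : ℕ) : ℤ)) ∧
    ∃ j < X, (∀ i, j ≠ W * t i) ∧
      ∀ p ∈ PS W z, ¬ (p : ℤ) ∣ F ((W * x + (b + j) : ℕ) : ℤ))

open Classical in
theorem bad_le : ∃ C : ℕ, 1 ≤ C ∧ ∀ (g m : ℕ), 1 ≤ g → ∀ F D : ℤ → ℤ, Dat g F D → ∃ A : ℝ, 0 < A ∧
    ∀ W : ℕ, (∀ p : ℕ, p.Prime → p ≤ C * (g * m + 2 * g + 1) → p ∣ W) →
    ∀ (J z M L b X : ℕ) (t : Fin m → ℕ), z ≤ 2 ^ 2 ^ J → 1 ≤ X → (∀ i, W * t i < X) →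
    ((BadS F W b z X M L t).card : ℝ) ≤
      2 * (L * ((∏ p ∈ PS W z, (1 - (rhoT F W b t p : ℝ) / p)) *
        (∏ p ∈ PS W z, (1 - (rt F p : ℝ) / (p : ℝ))))) * (A * X) +
      X * ((2 : ℝ) ^ 2 ^ J) ^ (C * (C * (g * m + 2 * g + 1))) := by
  obtain ⟨C, hC1, hC⟩ := c1g
  refine ⟨C, hC1, ?_⟩
  intro g m hg F D hD
  obtain ⟨A, hA, hsum⟩ := sum_all hD hg m
  refine ⟨A, hA, ?_⟩
  intro W hWp J z M L b X t hz hX ht
  have hWm : ∀ p : ℕ, p.Prime → p ≤ g * m + 2 * g → p ∣ W := by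
    intro p hp hpm
    apply hWp p hp
    have : 1 * (g * m + 2 * g + 1) ≤ C * (g * m + 2 * g + 1) := Nat.mul_le_mul_right _ hC1
    omega
  obtain ⟨Jx, hJx⟩ : ∃ Jx, Jx = (range X).filter (fun j => ∀ i, j ≠ W * t i) := ⟨_, rfl⟩
  have hsub : BadS F W b z X M L t ⊆ Jx.biUnion (fun j => (Ioc M (M + L)).filter
      (fun x => ∀ p ∈ PS W z, x % p ∉ OmB F W b t (b + j) p)) := by
    intro x hx
    unfold BadS at hx
    rw [mem_filter] at hx
    obtain ⟨h1, h2, j, hj, h4, h5⟩ := hx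
    rw [mem_biUnion]
    refine ⟨j, ?_, ?_⟩
    · rw [hJx, mem_filter, mem_range]
      exact ⟨hj, h4⟩
    · rw [mem_filter]
      refine ⟨h1, fun p hp => ?_⟩
      have hpp : p.Prime := by
        have hp' := hp
        unfold PS at hp'
        rw [mem_filter] at hp'
        exact hp'.2.1
      exact mod_OmB hD W b t (b + j) p x hpp (h2 p hp) (h5 p hp)
  set V := ∏ p ∈ PS W z, (1 - (rhoT F W b t p : ℝ) / p) with hV
  set v := ∏ p ∈ PS W z, (1 - (rt F p : ℝ) / (p : ℝ)) with hv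
  set E := ((2 : ℝ) ^ 2 ^ J) ^ (C * (C * (g * m + 2 * g + 1))) with hE
  have hE0 : 0 ≤ E := by positivity
  have hmem : ∀ p ∈ PS W z, p.Prime ∧ ¬ p ∣ W := by
    intro p hp
    unfold PS at hp
    rw [mem_filter, mem_Icc] at hp
    exact hp.2
  have hne : ∀ j ∈ Jx, ∀ i, ee D W b t (b + j) i ≠ 0 := by
    intro j hj i
    rw [hJx, mem_filter] at hj
    unfold ee
    rw [Int.natAbs_ne_zero]
    apply hD.nz
    intro h
    apply hj.2 i
    have h2 : (j : ℤ) = ((W * t i : ℕ) : ℤ) := by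
      push_cast at h ⊢
      linarith
    exact_mod_cast h2
  have hone : ∀ j ∈ Jx, (((Ioc M (M + L)).filter
      (fun x => ∀ p ∈ PS W z, x % p ∉ OmB F W b t (b + j) p)).card : ℝ) ≤
      2 * (L * (V * v)) * (∏ i, Gm (2 * g : ℕ) (ee D W b t (b + j) i)) + E := by
    intro j hj
    obtain ⟨g1, g2⟩ := prod_B hD W b z t (b + j) hWm (hne j hj)
    have g3 := hC (g * m + 2 * g) (C * (g * m + 2 * g + 1)) W le_rfl hWp J z M L hz
      (fun p => OmB F W b t (b + j) p) (fun p hp => ⟨(OmB_le hD W b t (b + j) p (hmem p hp).1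
        (hmem p hp).2).trans (by omega), fun c hc => by
          unfold OmB OmC R1 at hc
          rw [mem_union, mem_filter, mem_filter, mem_range] at hc
          rcases hc with hc | hc
          · exact hc.1
          · exact hc.1⟩)
    rw [abs_le] at g3
    have g4 := g3.2
    have hhalf : (1 / 2 : ℝ) ^ (C * (g * m + 2 * g + 1)) ≤ 1 := pow_le_one₀ (by norm_num) (by norm_num)
    set Q := ∏ p ∈ PS W z, (1 - ((OmB F W b t (b + j) p).card : ℝ) / p) with hQ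
    have hLQ : 0 ≤ (L : ℝ) * Q := mul_nonneg (Nat.cast_nonneg _) g1
    have g5 : (1 / 2 : ℝ) ^ (C * (g * m + 2 * g + 1)) * ((L : ℝ) * Q) ≤ 1 * ((L : ℝ) * Q) :=
      mul_le_mul_of_nonneg_right hhalf hLQ
    have g6 : (L : ℝ) * Q ≤ L * (V * v * ∏ i, Gm (2 * g : ℕ) (ee D W b t (b + j) i)) :=
      mul_le_mul_of_nonneg_left g2 (Nat.cast_nonneg _)
    calc (((Ioc M (M + L)).filter
      (fun x => ∀ p ∈ PS W z, x % p ∉ OmB F W b t (b + j) p)).card : ℝ) ≤ 2 * ((L : ℝ) * Q) + E := by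
          linarith
      _ ≤ 2 * (L * (V * v * ∏ i, Gm (2 * g : ℕ) (ee D W b t (b + j) i))) + E := by linarith
      _ = _ := by ring
  have h0 : 0 ≤ 2 * ((L : ℝ) * (V * v)) := by
    have g1 : 0 ≤ V := by
      apply prod_nonneg
      intro p hp
      obtain ⟨q1, q2⟩ := hmem p hp
      have hp0 : (0 : ℝ) < p := by exact_mod_cast q1.pos
      have q3 := OmC_le hD W b t p q1 q2
      have q4 : g * m + 2 * g < p := by
        by_contra hcon
        exact q2 (hWm p q1 (not_lt.1 hcon))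
      rw [sub_nonneg, div_le_one hp0]
      exact_mod_cast (by omega : rhoT F W b t p ≤ p)
    have g2 : 0 ≤ v := by
      apply prod_nonneg
      intro p hp
      obtain ⟨q1, q2⟩ := hmem p hp
      have hp0 : (0 : ℝ) < p := by exact_mod_cast q1.pos
      rw [sub_nonneg, div_le_one hp0]
      exact_mod_cast (hD.sys.root p q1).2.le
    positivity
  calc ((BadS F W b z X M L t).card : ℝ) ≤ ((Jx.biUnion (fun j => (Ioc M (M + L)).filter
      (fun x => ∀ p ∈ PS W z, x % p ∉ OmB F W b t (b + j) p))).card : ℝ) := by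
        exact_mod_cast card_le_card hsub
    _ ≤ ∑ j ∈ Jx, (((Ioc M (M + L)).filter
      (fun x => ∀ p ∈ PS W z, x % p ∉ OmB F W b t (b + j) p)).card : ℝ) := by
        exact_mod_cast card_biUnion_le
    _ ≤ ∑ j ∈ Jx, (2 * (L * (V * v)) * (∏ i, Gm (2 * g : ℕ) (ee D W b t (b + j) i)) + E) := sum_le_sum hone
    _ = 2 * (L * (V * v)) * (∑ j ∈ Jx, ∏ i, Gm (2 * g : ℕ) (ee D W b t (b + j) i)) + Jx.card * E := by
        rw [sum_add_distrib, ← mul_sum, sum_const, nsmul_eq_mul]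
    _ ≤ _ := by
        apply add_le_add
        · apply mul_le_mul_of_nonneg_left _ h0
          apply hsum W b X t hX ht Jx
          intro j hj
          rw [hJx, mem_filter, mem_range] at hj
          exact hj
        · apply mul_le_mul_of_nonneg_right _ hE0
          have : Jx.card ≤ X := by
            rw [hJx]
            exact (card_filter_le _ _).trans (le_of_eq (card_range X))
          exact_mod_cast this

end Pool.Agent.V8H2.MG
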