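import Pool.Agent.V8H2.MG.Up

/-!
The average condition: products and linear forms.
-/

set_option autoImplicit false

namespace Pool.Agent.V8H2.MG

open Finset Filter
open Pool.Agent.V8H2.MQ (avg)

/-- the average condition -/
def Av (D : ℤ → ℤ) : Prop :=
  ∀ C : ℝ, 0 ≤ C → ∃ A : ℝ, 0 < A ∧ ∀ (X : ℕ) (a : ℤ), 1 ≤ X → |a| ≤ X →
    ∑ j ∈ (range X).filter (fun j : ℕ => a - (j : ℤ) ≠ 0), Gm C (D (a - (j : ℤ))).natAbs ≤ A * X

theorem Gm_mono (C C' : ℝ) (hC : 0 ≤ C) (h : C ≤ C') (e : ℕ) : Gm C e ≤ Gm C' e := by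
  unfold Gm
  apply Finset.prod_le_prod
  · intro p _
    positivity
  · intro p _
    have : C / (p : ℝ) ≤ C' / p := by gcongr
    linarith

theorem Gm_mul (C : ℝ) (hC : 0 ≤ C) (a b : ℕ) (ha : a ≠ 0) (hb : b ≠ 0) :
    Gm C (a * b) ≤ Gm C a * Gm C b := by
  classical
  unfold Gm
  rw [Nat.primeFactors_mul ha hb, ← Finset.prod_union_inter]
  apply le_mul_of_one_le_right
  · apply prod_nonneg
    intro p _
    positivity
  · apply one_le_prod
    intro p _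
    have : 0 ≤ C / (p : ℝ) := by positivity
    linarith

theorem Av_mul (D₁ D₂ : ℤ → ℤ) (n₁ : ∀ h : ℤ, h ≠ 0 → D₁ h ≠ 0) (n₂ : ∀ h : ℤ, h ≠ 0 → D₂ h ≠ 0)
    (h₁ : Av D₁) (h₂ : Av D₂) : Av (fun h => D₁ h * D₂ h) := by
  intro C hC
  obtain ⟨A₁, hA₁, g₁⟩ := h₁ ((1 + (C + 1)) ^ 2) (by positivity)
  obtain ⟨A₂, hA₂, g₂⟩ := h₂ ((1 + (C + 1)) ^ 2) (by positivity)
  refine ⟨A₁ + A₂, by positivity, fun X a hX ha => ?_⟩
  have key : ∀ j ∈ (range X).filter (fun j : ℕ => a - (j : ℤ) ≠ 0),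
      Gm C (D₁ (a - (j : ℤ)) * D₂ (a - (j : ℤ))).natAbs ≤
        Gm ((1 + (C + 1)) ^ 2) (D₁ (a - (j : ℤ))).natAbs +
        Gm ((1 + (C + 1)) ^ 2) (D₂ (a - (j : ℤ))).natAbs := by
    intro j hj
    rw [mem_filter] at hj
    have e1 := n₁ _ hj.2
    have e2 := n₂ _ hj.2
    rw [Int.natAbs_mul]
    have h3 := Gm_mul C hC (D₁ (a - (j : ℤ))).natAbs (D₂ (a - (j : ℤ))).natAbs
      (Int.natAbs_ne_zero.2 e1) (Int.natAbs_ne_zero.2 e2)
    have h4 : ∀ e, Gm C e ^ 2 ≤ Gm ((1 + (C + 1)) ^ 2) e := by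
      intro e
      have h5 := Gm_pow (C + 1) (by linarith) 2 e
      refine le_trans ?_ h5
      exact pow_le_pow_left₀ (le_trans zero_le_one (Gm_one C hC e)) (Gm_mono C (C + 1) hC (by linarith) e) 2
    have h5 := h4 (D₁ (a - (j : ℤ))).natAbs
    have h6 := h4 (D₂ (a - (j : ℤ))).natAbs
    nlinarith [sq_nonneg (Gm C (D₁ (a - (j : ℤ))).natAbs - Gm C (D₂ (a - (j : ℤ))).natAbs),
      sq_nonneg (Gm C (D₁ (a - (j : ℤ))).natAbs), sq_nonneg (Gm C (D₂ (a - (j : ℤ))).natAbs)]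
  refine (sum_le_sum key).trans ?_
  rw [sum_add_distrib, add_mul]
  exact add_le_add (g₁ X a hX ha) (g₂ X a hX ha)

theorem Av_one : Av (fun _ => 1) := by
  intro C _
  refine ⟨1, one_pos, fun X a _ _ => ?_⟩
  have h1 : ∀ j ∈ (range X).filter (fun j : ℕ => a - (j : ℤ) ≠ 0), Gm C ((1 : ℤ)).natAbs = 1 := by
    intro j _
    simp [Gm]
  rw [sum_congr rfl h1, sum_const, nsmul_eq_mul, mul_one, one_mul]
  have h2 : ((range X).filter (fun j : ℕ => a - (j : ℤ) ≠ 0)).card ≤ X :=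
    (card_filter_le _ _).trans (le_of_eq (card_range X))
  exact_mod_cast h2

theorem Av_prod {ι : Type} (s : Finset ι) (D : ι → ℤ → ℤ) (n : ∀ i ∈ s, ∀ h : ℤ, h ≠ 0 → D i h ≠ 0)
    (h : ∀ i ∈ s, Av (D i)) : Av (fun x => ∏ i ∈ s, D i x) := by
  classical
  induction s using Finset.induction_on with
  | empty =>
    simp only [prod_empty]
    exact Av_one
  | insert i s hi ih =>
    have e : (fun x => ∏ i ∈ insert i s, D i x) = fun x => D i x * ∏ i ∈ s, D i x := by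
      funext x
      rw [prod_insert hi]
    rw [e]
    apply Av_mul
    · exact n i (mem_insert_self _ _)
    · intro x hx
      exact prod_ne_zero_iff.2 fun j hj => n j (mem_insert_of_mem hj) x hx
    · exact h i (mem_insert_self _ _)
    · exact ih (fun j hj => n j (mem_insert_of_mem hj)) (fun j hj => h j (mem_insert_of_mem hj))

theorem Av_lin (α : ℕ) (β : ℤ) (hα : 0 < α) (hnz : ∀ h : ℤ, h ≠ 0 → α * h + β ≠ 0) :
    Av (fun h => α * h + β) := by
  classical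
  intro C hC
  refine ⟨2 * ((2 * α + β.natAbs : ℕ) : ℝ) * Real.exp (2 * C), by positivity, fun X a hX ha => ?_⟩
  obtain ⟨Y, hY⟩ : ∃ Y : ℕ, Y = (2 * α + β.natAbs) * X := ⟨_, rfl⟩
  obtain ⟨J, hJ⟩ : ∃ J : Finset ℕ, J = (range X).filter (fun j : ℕ => a - (j : ℤ) ≠ 0) := ⟨_, rfl⟩
  have hJm : ∀ j ∈ J, j < X ∧ a - (j : ℤ) ≠ 0 := by
    intro j hj
    rw [hJ, mem_filter, mem_range] at hj
    exact hj
  rw [← hJ]
  have hmaps : ∀ j ∈ J, ((α : ℤ) * (a - (j : ℤ)) + β).natAbs ∈ Icc 1 Y := by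
    intro j hj
    obtain ⟨h1, h2⟩ := hJm j hj
    have h3 := hnz _ h2
    rw [mem_Icc]
    refine ⟨by omega, ?_⟩
    have h4 : |a - (j : ℤ)| ≤ 2 * X := by
      rw [abs_le] at ha ⊢
      constructor <;> omega
    have h5 : |(α : ℤ) * (a - (j : ℤ)) + β| ≤ α * (2 * X) + |β| := by
      refine (abs_add_le _ _).trans ?_
      rw [abs_mul, Nat.abs_cast]
      gcongr
    have h6 : |β| ≤ |β| * X := by
      have h7 : (1 : ℤ) ≤ X := by exact_mod_cast hX
      nlinarith [abs_nonneg β]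
    have h8 : (((α : ℤ) * (a - (j : ℤ)) + β).natAbs : ℤ) ≤ (Y : ℤ) := by
      rw [Int.natCast_natAbs, hY]
      push_cast
      linarith
    exact_mod_cast h8
  rw [← Finset.sum_fiberwise_of_maps_to hmaps]
  have h1 : ∀ e ∈ Icc 1 Y, ∑ j ∈ J.filter (fun j : ℕ => ((α : ℤ) * (a - (j : ℤ)) + β).natAbs = e),
      Gm C ((α : ℤ) * (a - (j : ℤ)) + β).natAbs ≤ 2 * Gm C e := by
    intro e _
    have h2 : ∀ j ∈ J.filter (fun j : ℕ => ((α : ℤ) * (a - (j : ℤ)) + β).natAbs = e),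
        Gm C ((α : ℤ) * (a - (j : ℤ)) + β).natAbs = Gm C e := by
      intro j hj
      rw [mem_filter] at hj
      rw [hj.2]
    rw [sum_congr rfl h2, sum_const, nsmul_eq_mul]
    apply mul_le_mul_of_nonneg_right _ (le_trans zero_le_one (Gm_one C hC e))
    have h3 : (J.filter (fun j : ℕ => ((α : ℤ) * (a - (j : ℤ)) + β).natAbs = e)).card ≤ 2 := by
      have hinj : Set.InjOn (fun j : ℕ => (α : ℤ) * (a - (j : ℤ)) + β)
          (J.filter (fun j : ℕ => ((α : ℤ) * (a - (j : ℤ)) + β).natAbs = e) : Finset ℕ) := by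
        intro i _ j _ hij
        simp only at hij
        have h4 : (α : ℤ) * (a - (i : ℤ)) = (α : ℤ) * (a - (j : ℤ)) := by linarith
        have h5 := mul_left_cancel₀ (by exact_mod_cast hα.ne') h4
        have h6 : (i : ℤ) = j := by linarith
        exact_mod_cast h6
      rw [← card_image_of_injOn hinj]
      refine (card_le_card (t := {(e : ℤ), -(e : ℤ)}) ?_).trans card_le_two
      intro y hy
      rw [mem_image] at hy
      obtain ⟨j, hj, rfl⟩ := hy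
      rw [mem_filter] at hj
      rw [mem_insert, mem_singleton]
      have := hj.2
      omega
    exact_mod_cast h3
  refine (sum_le_sum h1).trans ?_
  rw [← mul_sum]
  have h2 := avg C hC Y
  have e : (Y : ℝ) = ((2 * α + β.natAbs : ℕ) : ℝ) * X := by
    rw [hY]
    push_cast
    ring
  rw [e] at h2
  calc 2 * ∑ e ∈ Icc 1 Y, Gm C e ≤ 2 * (((2 * α + β.natAbs : ℕ) : ℝ) * X * Real.exp (2 * C)) := by
        apply mul_le_mul_of_nonneg_left h2 (by norm_num)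
    _ = _ := by ring

end Pool.Agent.V8H2.MG
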