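import Pool.Agent.V8H2.MG.Run
import Pool.Agent.V8H2.MG.Lin

/-!
The data for the Cunningham chains.
-/

set_option autoImplicit false

namespace Pool.Agent.V8H2.MG

open Finset Filter Polynomial
open Pool.Agent.Y677.RSZ (rt Sys rhoT poly_all)

/-- the terms of the chain of `z` -/
def Tc (ε : ℤ) (j : ℕ) (z : ℤ) : ℤ := 2 ^ j * z + (2 ^ j - 1) * ε

/-- the product of the terms `1, ..., L - 1` of the chain -/
def GC (ε : ℤ) (L : ℕ) (n : ℤ) : ℤ := ∏ j ∈ range (L - 1), Tc ε (j + 1) n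

/-- the collision function -/
def DC (ε : ℤ) (L : ℕ) (h : ℤ) : ℤ :=
  ∏ i ∈ range L ×ˢ range L, (((2 ^ (i.1 + i.2) : ℕ) : ℤ) * h + (2 ^ i.2 - 2 ^ i.1) * ε)

theorem FC_eq (ε : ℤ) (L : ℕ) (hL : 1 ≤ L) (n : ℤ) : n * GC ε L n = ∏ j ∈ range L, Tc ε j n := by
  obtain ⟨l, rfl⟩ : ∃ l, L = l + 1 := ⟨L - 1, by omega⟩
  unfold GC
  rw [prod_range_succ', Nat.add_sub_cancel, mul_comm]
  congr 1
  simp [Tc]

theorem FC_dvd (ε : ℤ) (L : ℕ) (hL : 1 ≤ L) (n : ℤ) (p : ℕ) (hp : p.Prime) :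
    (p : ℤ) ∣ n * GC ε L n ↔ ∃ j < L, (p : ℤ) ∣ Tc ε j n := by
  rw [FC_eq ε L hL, (Nat.prime_iff_prime_int.1 hp).dvd_finsetProd_iff]
  simp only [mem_range]

theorem DC_fac (ε : ℤ) (hε : ε = 1 ∨ ε = -1) (i j : ℕ) (h : ℤ) (hh : h ≠ 0) :
    ((2 ^ (i + j) : ℕ) : ℤ) * h + (2 ^ j - 2 ^ i) * ε ≠ 0 := by
  intro h0
  have hi : (1 : ℤ) ≤ 2 ^ i := one_le_pow₀ (by norm_num)
  have hj : (1 : ℤ) ≤ 2 ^ j := one_le_pow₀ (by norm_num)
  have h1 : |((2 ^ (i + j) : ℕ) : ℤ) * h| = |((2 : ℤ) ^ j - 2 ^ i) * ε| := by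
    have : ((2 ^ (i + j) : ℕ) : ℤ) * h = -(((2 : ℤ) ^ j - 2 ^ i) * ε) := by linarith
    rw [this, abs_neg]
  have h2 : |((2 : ℤ) ^ j - 2 ^ i) * ε| = |(2 : ℤ) ^ j - 2 ^ i| := by
    rw [abs_mul]
    rcases hε with rfl | rfl <;> simp
  have h3 : (1 : ℤ) ≤ |h| := Int.one_le_abs hh
  have h4 : (2 : ℤ) ^ i * 2 ^ j ≤ |((2 ^ (i + j) : ℕ) : ℤ) * h| := by
    rw [abs_mul, Nat.abs_cast]
    push_cast
    rw [pow_add]
    have : (0 : ℤ) ≤ 2 ^ i * 2 ^ j := by positivity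
    nlinarith
  have h5 : |(2 : ℤ) ^ j - 2 ^ i| < 2 ^ i * 2 ^ j := by
    rw [abs_lt]
    constructor <;> nlinarith
  rw [h1, h2] at h4
  linarith

theorem datC (ε : ℤ) (hε : ε = 1 ∨ ε = -1) (L : ℕ) (hL : 1 ≤ L) :
    ∃ g : ℕ, L ≤ g ∧ Dat g (fun n => n * GC ε L n) (DC ε L) := by
  classical
  obtain ⟨P, hP⟩ : ∃ P : ℤ[X], P = X * ∏ j ∈ range (L - 1), (C (2 ^ (j + 1)) * X + C ((2 ^ (j + 1) - 1) * ε)) :=
    ⟨_, rfl⟩
  have hev : ∀ n : ℤ, P.eval n = n * GC ε L n := by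
    intro n
    rw [hP, eval_mul, eval_X, eval_prod]
    unfold GC
    congr 1
    apply prod_congr rfl
    intro j _
    simp [Tc]
  have hunit : ∀ j, Tc ε j (-ε) = -ε := by
    intro j
    unfold Tc
    ring
  have hε0 : IsUnit ε := by
    rcases hε with rfl | rfl
    · exact isUnit_one
    · exact isUnit_one.neg
  have hu : IsUnit (P.eval (-ε)) := by
    rw [hev]
    unfold GC
    apply hε0.neg.mul
    rw [prod_congr rfl (fun j _ => hunit (j + 1)), prod_const]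
    exact hε0.neg.pow _
  obtain ⟨g₀, hg₀⟩ := poly_all P
    (by
      intro h
      rw [h, eval_zero] at hu
      exact not_isUnit_zero hu)
    (fun p hp => ⟨-ε, fun h => (Nat.prime_iff_prime_int.1 hp).not_isUnit (isUnit_of_dvd_unit h hu)⟩)
  have hfun : (fun n : ℤ => P.eval n) = fun n => n * GC ε L n := funext hev
  rw [hfun] at hg₀
  refine ⟨g₀ + L, by omega, ?_, ?_, ?_, ?_, ?_⟩
  · exact Pool.Agent.Y677.RSZ.Sys.mono hg₀ (by omega)
  · intro p _ n hn
    exact hn.mul_right _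
  · intro p hp x h h1 h2
    rw [FC_dvd ε L hL _ p hp] at h1 h2
    obtain ⟨i, hi, h1⟩ := h1
    obtain ⟨j, hj, h2⟩ := h2
    unfold DC
    have hmem : ((i, j) : ℕ × ℕ) ∈ range L ×ˢ range L := mem_product.2 ⟨mem_range.2 hi, mem_range.2 hj⟩
    refine Dvd.dvd.trans ?_ (dvd_prod_of_mem (fun i : ℕ × ℕ =>
      (((2 ^ (i.1 + i.2) : ℕ) : ℤ) * h + (2 ^ i.2 - 2 ^ i.1) * ε)) hmem)
    simp only
    have e : ((2 ^ (i + j) : ℕ) : ℤ) * h + (2 ^ j - 2 ^ i) * ε = 2 ^ i * Tc ε j (x + h) - 2 ^ j * Tc ε i x := by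
      unfold Tc
      push_cast
      ring
    rw [e]
    exact dvd_sub (h2.mul_left _) (h1.mul_left _)
  · intro h hh
    unfold DC
    exact prod_ne_zero_iff.2 fun i _ => DC_fac ε hε i.1 i.2 h hh
  · have h1 : Av (fun x => ∏ i ∈ range L ×ˢ range L, (((2 ^ (i.1 + i.2) : ℕ) : ℤ) * x + (2 ^ i.2 - 2 ^ i.1) * ε)) := by
      apply Av_prod
      · intro i _ h hh
        exact DC_fac ε hε i.1 i.2 h hh
      · intro i _
        exact Av_lin (2 ^ (i.1 + i.2)) _ (by positivity) (fun h hh => DC_fac ε hε i.1 i.2 h hh)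
    exact h1

theorem rtC_le (ε : ℤ) (L : ℕ) (hL : 1 ≤ L) (p : ℕ) (hp : p.Prime) (hp2 : 2 ^ L < p) :
    rt (fun n => n * GC ε L n) p ≤ L := by
  classical
  have hpodd : p ≠ 2 := by
    intro h
    have : 2 ^ 1 ≤ 2 ^ L := Nat.pow_le_pow_right (by norm_num) hL
    omega
  have hpp := Nat.prime_iff_prime_int.1 hp
  have h2 : ¬ (p : ℤ) ∣ 2 := by
    intro h
    have h3 : p ∣ 2 := by exact_mod_cast h
    exact hpodd ((Nat.prime_dvd_prime_iff_eq hp Nat.prime_two).1 h3)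
  unfold rt
  have hsub : (range p).filter (fun r : ℕ => (p : ℤ) ∣ (r : ℤ) * GC ε L (r : ℤ)) ⊆
      (range L).biUnion (fun j => (range p).filter (fun r : ℕ => (p : ℤ) ∣ Tc ε j (r : ℤ))) := by
    intro r hr
    rw [mem_filter, FC_dvd ε L hL _ p hp] at hr
    obtain ⟨h3, j, hj, h4⟩ := hr
    rw [mem_biUnion]
    exact ⟨j, mem_range.2 hj, mem_filter.2 ⟨h3, h4⟩⟩
  refine (card_le_card hsub).trans (card_biUnion_le.trans ?_)
  calc ∑ j ∈ range L, ((range p).filter (fun r : ℕ => (p : ℤ) ∣ Tc ε j (r : ℤ))).card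
      ≤ ∑ _j ∈ range L, 1 := by
        apply sum_le_sum
        intro j _
        rw [card_le_one]
        intro r hr s hs
        rw [mem_filter, mem_range] at hr hs
        have h3 : (p : ℤ) ∣ 2 ^ j * ((r : ℤ) - s) := by
          have e : (2 : ℤ) ^ j * ((r : ℤ) - s) = Tc ε j r - Tc ε j s := by
            unfold Tc
            ring
          rw [e]
          exact dvd_sub hr.2 hs.2
        have h4 : (p : ℤ) ∣ (r : ℤ) - s := (hpp.dvd_mul.1 h3).resolve_left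
          (fun h => h2 (hpp.dvd_of_dvd_pow h))
        have h5 : |(r : ℤ) - s| < p := by
          rw [abs_lt]
          constructor <;> omega
        have h6 := Int.eq_zero_of_abs_lt_dvd h4 h5
        omega
    _ = L := by simp

theorem rtC_ge (ε : ℤ) (hε : ε = 1 ∨ ε = -1) (L : ℕ) (hL : 1 ≤ L) (p : ℕ) (hp : p.Prime) (hp2 : 2 ^ L < p) :
    L ≤ rt (fun n => n * GC ε L n) p := by
  classical
  have hpodd : p ≠ 2 := by
    intro h
    have : 2 ^ 1 ≤ 2 ^ L := Nat.pow_le_pow_right (by norm_num) hL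
    omega
  have hpp := Nat.prime_iff_prime_int.1 hp
  have h2 : ¬ (p : ℤ) ∣ 2 := by
    intro h
    have h3 : p ∣ 2 := by exact_mod_cast h
    exact hpodd ((Nat.prime_dvd_prime_iff_eq hp Nat.prime_two).1 h3)
  have hex : ∀ j : ℕ, ∃ r : ℕ, r < p ∧ (p : ℤ) ∣ Tc ε j (r : ℤ) := by
    intro j
    have hcop : IsCoprime ((2 : ℤ) ^ j) (p : ℤ) := by
      apply IsCoprime.pow_left
      rw [isCoprime_comm]
      exact (Prime.coprime_iff_not_dvd hpp).2 h2
    obtain ⟨u, v, huv⟩ := hcop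
    obtain ⟨y, hy⟩ : ∃ y : ℤ, y = -(u * ((2 ^ j - 1) * ε)) := ⟨_, rfl⟩
    have hp0 : (0 : ℤ) < p := by exact_mod_cast hp.pos
    have h3 := Int.emod_nonneg y hp0.ne'
    have h4 := Int.emod_lt_of_pos y hp0
    refine ⟨(y % p).toNat, by omega, ?_⟩
    have h5 : (((y % p).toNat : ℕ) : ℤ) = y % p := Int.toNat_of_nonneg h3
    rw [h5]
    have h6 : (p : ℤ) ∣ y - y % p := Int.dvd_self_sub_emod
    have h7 : (p : ℤ) ∣ Tc ε j y := by
      unfold Tc
      refine ⟨v * ((2 ^ j - 1) * ε), ?_⟩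
      rw [hy]
      have h8 : (1 : ℤ) - u * 2 ^ j = v * p := by linarith
      calc (2 : ℤ) ^ j * -(u * ((2 ^ j - 1) * ε)) + (2 ^ j - 1) * ε
          = (1 - u * 2 ^ j) * ((2 ^ j - 1) * ε) := by ring
        _ = _ := by rw [h8]; ring
    have e : Tc ε j (y % p) = Tc ε j y - 2 ^ j * (y - y % p) := by
      unfold Tc
      ring
    rw [e]
    exact dvd_sub h7 (h6.mul_left _)
  choose r hr1 hr2 using hex
  unfold rt
  have hinj : Set.InjOn r (range L : Finset ℕ) := by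
    have key : ∀ i j : ℕ, i < j → j < L → r i = r j → False := by
      intro i j hij hjL he
      have h3 := hr2 i
      have h4 := hr2 j
      rw [← he] at h4
      obtain ⟨d, rfl⟩ : ∃ d, j = i + d := ⟨j - i, by omega⟩
      have h5 : (p : ℤ) ∣ (2 ^ d - 1) * ε := by
        have e : ((2 : ℤ) ^ d - 1) * ε = Tc ε (i + d) (r i) - 2 ^ d * Tc ε i (r i) := by
          unfold Tc
          rw [pow_add]
          ring
        rw [e]
        exact dvd_sub h4 (h3.mul_left _)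
      have h6 : (p : ℤ) ∣ 2 ^ d - 1 := by
        rcases hε with rfl | rfl
        · simpa using h5
        · have := (dvd_neg (a := (p : ℤ))).2 h5
          simpa using this
      have h7 : (2 : ℤ) ≤ 2 ^ d := by
        calc (2 : ℤ) = 2 ^ 1 := by norm_num
          _ ≤ 2 ^ d := pow_le_pow_right₀ (by norm_num) (by omega)
      have h8 := Int.le_of_dvd (by linarith) h6
      have h9 : (2 : ℤ) ^ d ≤ 2 ^ L := pow_le_pow_right₀ (by norm_num) (by omega)
      have h10 : ((2 ^ L : ℕ) : ℤ) < p := by exact_mod_cast hp2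
      push_cast at h10
      linarith
    intro i hi j hj he
    rw [mem_coe, mem_range] at hi hj
    rcases lt_trichotomy i j with h | h | h
    · exact (key i j h hj he).elim
    · exact h
    · exact (key j i h hi he.symm).elim
  calc L = (range L).card := (card_range L).symm
    _ = ((range L).image r).card := (card_image_of_injOn hinj).symm
    _ ≤ _ := by
        apply card_le_card
        intro s hs
        rw [mem_image] at hs
        obtain ⟨j, hj, rfl⟩ := hs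
        rw [mem_filter, mem_range, FC_dvd ε L hL _ p hp]
        exact ⟨hr1 j, j, mem_range.1 hj, hr2 j⟩

end Pool.Agent.V8H2.MG
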