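import Pool.Agent.V8H2.MG.Lin

/-!
The average condition for functions with few roots modulo primes.
-/

set_option autoImplicit false

namespace Pool.Agent.V8H2.MG

open Finset Filter

section
variable (D : ℤ → ℤ)

theorem per_mul (p : ℕ) (h : ∀ x : ℤ, (p : ℤ) ∣ D (x + p) - D x) (x : ℤ) (k : ℕ) :
    (p : ℤ) ∣ D (x + k * p) - D x := by
  induction k with
  | zero => simp
  | succ k ih =>
    have e : x + ((k + 1 : ℕ) : ℤ) * p = (x + k * p) + p := by
      push_cast
      ring
    rw [e]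
    have h1 := dvd_add (h (x + k * p)) ih
    have e2 : D (x + k * p + p) - D (x + k * p) + (D (x + k * p) - D x) = D (x + k * p + p) - D x := by ring
    rwa [e2] at h1

theorem per_int (p : ℕ) (h : ∀ x : ℤ, (p : ℤ) ∣ D (x + p) - D x) (x y : ℤ) (hxy : (p : ℤ) ∣ x - y) :
    (p : ℤ) ∣ D x → (p : ℤ) ∣ D y := by
  intro hx
  obtain ⟨c, hc⟩ := hxy
  rcases le_total 0 c with h0 | h0
  · obtain ⟨k, rfl⟩ := Int.eq_ofNat_of_zero_le h0
    have h1 := per_mul D p h y k
    have e : y + k * p = x := by linarith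
    rw [e] at h1
    have h2 := dvd_sub hx h1
    have e2 : D x - (D x - D y) = D y := by ring
    rwa [e2] at h2
  · obtain ⟨k, hk⟩ := Int.eq_ofNat_of_zero_le (neg_nonneg.2 h0)
    have h1 := per_mul D p h x k
    have e : x + k * p = y := by
      have : (k : ℤ) = -c := hk.symm
      rw [this]
      linarith
    rw [e] at h1
    have h2 := dvd_add h1 hx
    have e2 : D y - D x + D x = D y := by ring
    rwa [e2] at h2

theorem refl_card (p : ℕ) (hp : p.Prime) (h : ∀ x : ℤ, (p : ℤ) ∣ D (x + p) - D x) (a : ℤ) :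
    ((range p).filter (fun x : ℕ => (p : ℤ) ∣ D (a - (x : ℤ)))).card ≤
      ((range p).filter (fun r : ℕ => (p : ℤ) ∣ D (r : ℤ))).card := by
  have hp0 : (0 : ℤ) < p := by exact_mod_cast hp.pos
  apply card_le_card_of_injOn (fun x : ℕ => ((a - (x : ℤ)) % p).toNat)
  · intro x hx
    rw [mem_coe, mem_filter, mem_range] at hx ⊢
    have h1 := Int.emod_nonneg (a - (x : ℤ)) hp0.ne'
    have h2 := Int.emod_lt_of_pos (a - (x : ℤ)) hp0
    beta_reduce
    refine ⟨by omega, ?_⟩
    apply per_int D p h _ _ _ hx.2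
    rw [Int.toNat_of_nonneg h1]
    exact Int.dvd_self_sub_emod
  · intro x hx y hy hxy
    rw [mem_coe, mem_filter, mem_range] at hx hy
    have h1 := Int.emod_nonneg (a - (x : ℤ)) hp0.ne'
    have h2 := Int.emod_nonneg (a - (y : ℤ)) hp0.ne'
    have h3 : (a - (x : ℤ)) % p = (a - (y : ℤ)) % p := by
      simp only at hxy
      omega
    have h4 : (p : ℤ) ∣ (x : ℤ) - y := by
      have h6 : (p : ℤ) ∣ (a - (y : ℤ)) - (a - (x : ℤ)) :=
        Int.ModEq.dvd (show (a - (x : ℤ)) ≡ (a - (y : ℤ)) [ZMOD p] from h3)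
      have e : (a - (y : ℤ)) - (a - (x : ℤ)) = (x : ℤ) - y := by ring
      rwa [e] at h6
    have h5 := Int.eq_zero_of_abs_lt_dvd h4 (by
      rw [abs_lt]
      constructor <;> omega)
    omega

theorem res_card (d : ℕ) (s : Finset ℕ) (hs : ∀ p ∈ s, p.Prime)
    (h : ∀ p ∈ s, ∀ x : ℤ, (p : ℤ) ∣ D (x + p) - D x)
    (hr : ∀ p ∈ s, ((range p).filter (fun r : ℕ => (p : ℤ) ∣ D (r : ℤ))).card ≤ d) (a : ℤ) :
    ((range (∏ p ∈ s, p)).filter (fun r : ℕ => ∀ p ∈ s, (p : ℤ) ∣ D (a - (r : ℤ)))).card ≤ d ^ s.card := by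
  classical
  induction s using Finset.induction_on with
  | empty =>
    simp
  | insert p s hps ih =>
    have ih' := ih (fun q hq => hs q (mem_insert_of_mem hq)) (fun q hq => h q (mem_insert_of_mem hq))
      (fun q hq => hr q (mem_insert_of_mem hq))
    have hp := hs p (mem_insert_self _ _)
    have hper := h p (mem_insert_self _ _)
    obtain ⟨M, hM⟩ : ∃ M : ℕ, M = ∏ q ∈ s, q := ⟨_, rfl⟩
    have hM0 : 0 < M := by
      rw [hM]
      exact prod_pos fun q hq => (hs q (mem_insert_of_mem hq)).pos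
    have hdM : ∀ q ∈ s, q ∣ M := by
      intro q hq
      rw [hM]
      exact dvd_prod_of_mem (fun q => q) hq
    have hcop : Nat.Coprime p M := by
      rw [hM]
      apply Nat.Coprime.prod_right
      intro q hq
      rw [Nat.coprime_primes hp (hs q (mem_insert_of_mem hq))]
      rintro rfl
      exact hps hq
    rw [prod_insert hps, ← hM, card_insert_of_notMem hps, pow_succ, mul_comm (d ^ s.card)]
    rw [← hM] at ih'
    have h1 := (refl_card D p hp hper a).trans (hr p (mem_insert_self _ _))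
    refine le_trans ?_ (Nat.mul_le_mul h1 ih')
    rw [← card_product]
    apply card_le_card_of_injOn (fun r : ℕ => (r % p, r % M))
    · intro r hr
      rw [mem_coe, mem_filter, mem_range] at hr
      rw [mem_coe, mem_product, mem_filter, mem_filter, mem_range, mem_range]
      refine ⟨⟨Nat.mod_lt _ hp.pos, ?_⟩, Nat.mod_lt _ hM0, ?_⟩
      · apply per_int D p hper _ _ _ (hr.2 p (mem_insert_self _ _))
        have e : (a - (r : ℤ)) - (a - ((r % p : ℕ) : ℤ)) = -((r : ℤ) - ((r % p : ℕ) : ℤ)) := by ring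
        simp only
        rw [e, dvd_neg]
        push_cast
        exact Int.dvd_self_sub_emod
      · intro q hq
        apply per_int D q (h q (mem_insert_of_mem hq)) _ _ _ (hr.2 q (mem_insert_of_mem hq))
        have e : (a - (r : ℤ)) - (a - ((r % M : ℕ) : ℤ)) = -((r : ℤ) - ((r % M : ℕ) : ℤ)) := by ring
        simp only
        rw [e, dvd_neg]
        push_cast
        exact (Int.natCast_dvd_natCast.2 (hdM q hq)).trans Int.dvd_self_sub_emod
    · intro r hr r' hr' hrr
      rw [mem_coe, mem_filter, mem_range] at hr hr'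
      rw [Prod.mk.injEq] at hrr
      have h3 : r ≡ r' [MOD p * M] := (Nat.modEq_and_modEq_iff_modEq_mul hcop).1 ⟨hrr.1, hrr.2⟩
      exact Nat.ModEq.eq_of_lt_of_lt h3 hr.1 hr'.1

theorem cnt_card (d : ℕ) (s : Finset ℕ) (hs : ∀ p ∈ s, p.Prime)
    (h : ∀ p ∈ s, ∀ x : ℤ, (p : ℤ) ∣ D (x + p) - D x)
    (hr : ∀ p ∈ s, ((range p).filter (fun r : ℕ => (p : ℤ) ∣ D (r : ℤ))).card ≤ d) (a : ℤ) (X : ℕ) :
    (((range X).filter (fun r : ℕ => ∀ p ∈ s, (p : ℤ) ∣ D (a - (r : ℤ)))).card : ℝ) ≤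
      (d : ℝ) ^ s.card * ((X : ℝ) / (∏ p ∈ s, (p : ℝ)) + 1) := by
  classical
  obtain ⟨M, hM⟩ : ∃ M : ℕ, M = ∏ q ∈ s, q := ⟨_, rfl⟩
  have hM0 : 0 < M := by
    rw [hM]
    exact prod_pos fun q hq => (hs q hq).pos
  have hdM : ∀ q ∈ s, q ∣ M := by
    intro q hq
    rw [hM]
    exact dvd_prod_of_mem (fun q => q) hq
  have h1 := res_card D d s hs h hr a
  rw [← hM] at h1
  have h2 : ((range X).filter (fun r : ℕ => ∀ p ∈ s, (p : ℤ) ∣ D (a - (r : ℤ)))).card ≤
      (X / M + 1) * d ^ s.card := by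
    refine le_trans ?_ (Nat.mul_le_mul_left _ h1)
    rw [← card_range (X / M + 1), ← card_product]
    apply card_le_card_of_injOn (fun r : ℕ => (r / M, r % M))
    · intro r hr
      rw [mem_coe, mem_filter, mem_range] at hr
      rw [mem_coe, mem_product, mem_filter, mem_range, mem_range]
      refine ⟨?_, Nat.mod_lt _ hM0, ?_⟩
      · have := Nat.div_le_div_right (c := M) hr.1.le
        simp only
        omega
      · intro q hq
        apply per_int D q (h q hq) _ _ _ (hr.2 q hq)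
        have e : (a - (r : ℤ)) - (a - ((r % M : ℕ) : ℤ)) = -((r : ℤ) - ((r % M : ℕ) : ℤ)) := by ring
        simp only
        rw [e, dvd_neg]
        push_cast
        exact (Int.natCast_dvd_natCast.2 (hdM q hq)).trans Int.dvd_self_sub_emod
    · intro r _ r' _ hrr
      rw [Prod.mk.injEq] at hrr
      rw [← Nat.div_add_mod r M, ← Nat.div_add_mod r' M, hrr.1, hrr.2]
  have h3 : (((X / M : ℕ) : ℝ)) ≤ (X : ℝ) / M := Nat.cast_div_le
  have h4 : (M : ℝ) = ∏ p ∈ s, (p : ℝ) := by
    rw [hM]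
    push_cast
    rfl
  rw [← h4]
  calc (((range X).filter (fun r : ℕ => ∀ p ∈ s, (p : ℤ) ∣ D (a - (r : ℤ)))).card : ℝ)
      ≤ (((X / M + 1) * d ^ s.card : ℕ) : ℝ) := by exact_mod_cast h2
    _ = (d : ℝ) ^ s.card * (((X / M : ℕ) : ℝ) + 1) := by
        push_cast
        ring
    _ ≤ _ := by gcongr

theorem gm_split (C : ℝ) (hC : 0 ≤ C) (B y e : ℕ) (hB : 0 < B) (hy : 1 ≤ y) (he : 0 < e) :
    Gm C e ≤ (1 + C) ^ B * (∏ p ∈ (range (y + 1)).filter (fun p => p.Prime ∧ ¬ p ∣ B),
      (if p ∣ e then 1 + C / (p : ℝ) else 1)) * Real.exp (C * (Nat.log 2 e / y)) := by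
  classical
  unfold Gm
  have h1 : ∀ p ∈ e.primeFactors, (0 : ℝ) < 1 + C / p := by
    intro p _
    positivity
  have hone : ∀ p : ℕ, (1 : ℝ) ≤ 1 + C / p := by
    intro p
    have : 0 ≤ C / (p : ℝ) := by positivity
    linarith
  rw [← prod_filter_mul_prod_filter_not e.primeFactors (fun p => p ∣ B)]
  rw [← prod_filter_mul_prod_filter_not (e.primeFactors.filter (fun p => ¬ p ∣ B)) (fun p => p ≤ y)]
  have e1 : ∏ p ∈ e.primeFactors.filter (fun p => p ∣ B), (1 + C / (p : ℝ)) ≤ (1 + C) ^ B := by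
    calc ∏ p ∈ e.primeFactors.filter (fun p => p ∣ B), (1 + C / (p : ℝ))
        ≤ ∏ p ∈ e.primeFactors.filter (fun p => p ∣ B), (1 + C) := by
          apply Finset.prod_le_prod
          · intro p _
            linarith [hone p]
          · intro p hp
            rw [mem_filter] at hp
            have hp1 : (1 : ℝ) ≤ p := by exact_mod_cast (Nat.prime_of_mem_primeFactors hp.1).one_le
            linarith [div_le_self hC hp1]
      _ = (1 + C) ^ (e.primeFactors.filter (fun p => p ∣ B)).card := by rw [prod_const]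
      _ ≤ (1 + C) ^ B := by
          apply pow_le_pow_right₀ (by linarith)
          calc (e.primeFactors.filter (fun p => p ∣ B)).card ≤ (Icc 1 B).card := by
                apply card_le_card
                intro p hp
                rw [mem_filter] at hp
                rw [mem_Icc]
                exact ⟨(Nat.prime_of_mem_primeFactors hp.1).one_le, Nat.le_of_dvd hB hp.2⟩
            _ = B := by rw [Nat.card_Icc]; omega
  have e2 : ∏ p ∈ (e.primeFactors.filter (fun p => ¬ p ∣ B)).filter (fun p => p ≤ y), (1 + C / (p : ℝ)) ≤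
      ∏ p ∈ (range (y + 1)).filter (fun p => p.Prime ∧ ¬ p ∣ B), (if p ∣ e then 1 + C / (p : ℝ) else 1) := by
    rw [← prod_filter]
    apply le_of_eq
    apply prod_congr _ (fun _ _ => rfl)
    ext p
    simp only [mem_filter, mem_range, Nat.mem_primeFactors]
    constructor
    · rintro ⟨⟨⟨h2, h3, h4⟩, h5⟩, h6⟩
      exact ⟨⟨by omega, h2, h5⟩, h3⟩
    · rintro ⟨⟨h2, h3, h5⟩, h4⟩
      exact ⟨⟨⟨h3, h4, he.ne'⟩, h5⟩, by omega⟩
  have e3 : ∏ p ∈ (e.primeFactors.filter (fun p => ¬ p ∣ B)).filter (fun p => ¬ p ≤ y), (1 + C / (p : ℝ)) ≤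
      Real.exp (C * (Nat.log 2 e / y)) := by
    have hy0 : (0 : ℝ) < y := by exact_mod_cast hy
    calc ∏ p ∈ (e.primeFactors.filter (fun p => ¬ p ∣ B)).filter (fun p => ¬ p ≤ y), (1 + C / (p : ℝ))
        ≤ ∏ p ∈ (e.primeFactors.filter (fun p => ¬ p ∣ B)).filter (fun p => ¬ p ≤ y), Real.exp (C / y) := by
          apply Finset.prod_le_prod
          · intro p _
            linarith [hone p]
          · intro p hp
            rw [mem_filter] at hp
            have h2 : (y : ℝ) ≤ p := by exact_mod_cast (not_le.1 hp.2).le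
            have h3 : C / (p : ℝ) ≤ C / y := by gcongr
            linarith [Real.add_one_le_exp (C / (y : ℝ))]
      _ = Real.exp (C / y) ^ ((e.primeFactors.filter (fun p => ¬ p ∣ B)).filter (fun p => ¬ p ≤ y)).card := by
          rw [prod_const]
      _ = Real.exp (((e.primeFactors.filter (fun p => ¬ p ∣ B)).filter (fun p => ¬ p ≤ y)).card * (C / y)) := by
          rw [Real.exp_nat_mul]
      _ ≤ _ := by
          apply Real.exp_le_exp.2
          have h2 : ((e.primeFactors.filter (fun p => ¬ p ∣ B)).filter (fun p => ¬ p ≤ y)).card ≤ Nat.log 2 e := by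
            apply Nat.le_log_of_pow_le (by norm_num)
            calc 2 ^ ((e.primeFactors.filter (fun p => ¬ p ∣ B)).filter (fun p => ¬ p ≤ y)).card
                ≤ 2 ^ e.primeFactors.card := by
                  apply Nat.pow_le_pow_right (by norm_num)
                  exact card_le_card ((filter_subset _ _).trans (filter_subset _ _))
              _ = ∏ p ∈ e.primeFactors, 2 := by rw [prod_const]
              _ ≤ ∏ p ∈ e.primeFactors, p := by
                  apply Finset.prod_le_prod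
                  · intro p _
                    norm_num
                  · intro p hp
                    exact (Nat.prime_of_mem_primeFactors hp).two_le
              _ ≤ e := Nat.le_of_dvd he (Nat.prod_primeFactors_dvd e)
          have h3 : (((e.primeFactors.filter (fun p => ¬ p ∣ B)).filter (fun p => ¬ p ≤ y)).card : ℝ) ≤
              Nat.log 2 e := by exact_mod_cast h2
          calc (((e.primeFactors.filter (fun p => ¬ p ∣ B)).filter (fun p => ¬ p ≤ y)).card : ℝ) * (C / y)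
              ≤ (Nat.log 2 e : ℝ) * (C / y) := by
                apply mul_le_mul_of_nonneg_right h3
                positivity
            _ = _ := by ring
  have p1 : 0 ≤ ∏ p ∈ e.primeFactors.filter (fun p => p ∣ B), (1 + C / (p : ℝ)) :=
    prod_nonneg fun p _ => by linarith [hone p]
  have p2 : 0 ≤ ∏ p ∈ (e.primeFactors.filter (fun p => ¬ p ∣ B)).filter (fun p => p ≤ y), (1 + C / (p : ℝ)) :=
    prod_nonneg fun p _ => by linarith [hone p]
  have p3 : 0 ≤ ∏ p ∈ (e.primeFactors.filter (fun p => ¬ p ∣ B)).filter (fun p => ¬ p ≤ y), (1 + C / (p : ℝ)) :=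
    prod_nonneg fun p _ => by linarith [hone p]
  rw [mul_assoc ((1 + C) ^ B)]
  exact mul_le_mul e1 (mul_le_mul e2 e3 p3 (p2.trans e2)) (mul_nonneg p2 p3) (p1.trans e1)

theorem inv_sum (y : ℕ) (P : Finset ℕ) (hP : ∀ p ∈ P, 1 ≤ p ∧ p ≤ y) (hy : 1 ≤ y) :
    ∑ p ∈ P, 1 / (p : ℝ) ≤ 1 + Real.log y := by
  calc ∑ p ∈ P, 1 / (p : ℝ) ≤ ∑ p ∈ Icc 1 y, 1 / (p : ℝ) := by
        apply sum_le_sum_of_subset_of_nonneg
        · intro p hp
          exact mem_Icc.2 (hP p hp)
        · intro p _ _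
          positivity
    _ = ((harmonic y : ℚ) : ℝ) := by
        rw [harmonic_eq_sum_Icc]
        push_cast
        apply sum_congr rfl
        intro p _
        rw [one_div]
    _ ≤ 1 + Real.log y := harmonic_le_one_add_log y

theorem small_avg (C : ℝ) (hC : 0 ≤ C) (d B y : ℕ) (hy : 1 ≤ y)
    (h : ∀ p : ℕ, p.Prime → ∀ x : ℤ, (p : ℤ) ∣ D (x + p) - D x)
    (hr : ∀ p : ℕ, p.Prime → ¬ p ∣ B → ((range p).filter (fun r : ℕ => (p : ℤ) ∣ D (r : ℤ))).card ≤ d)
    (a : ℤ) (X : ℕ) :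
    ∑ j ∈ range X, (∏ p ∈ (range (y + 1)).filter (fun p => p.Prime ∧ ¬ p ∣ B),
      (if (p : ℤ) ∣ D (a - (j : ℤ)) then 1 + C / (p : ℝ) else 1)) ≤
      Real.exp (2 * (C * d)) * X + Real.exp (C * d * (1 + Real.log y)) := by
  classical
  obtain ⟨P, hP⟩ : ∃ P : Finset ℕ, P = (range (y + 1)).filter (fun p => p.Prime ∧ ¬ p ∣ B) := ⟨_, rfl⟩
  have hPm : ∀ p ∈ P, p.Prime ∧ ¬ p ∣ B ∧ p ≤ y := by
    intro p hp
    rw [hP, mem_filter, mem_range] at hp
    exact ⟨hp.2.1, hp.2.2, by omega⟩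
  rw [← hP]
  have e1 : ∀ j ∈ range X, (∏ p ∈ P, (if (p : ℤ) ∣ D (a - (j : ℤ)) then 1 + C / (p : ℝ) else 1)) =
      ∑ s ∈ P.powerset, (∏ p ∈ s, C / (p : ℝ)) * (if ∀ p ∈ s, (p : ℤ) ∣ D (a - (j : ℤ)) then 1 else 0) := by
    intro j _
    have e2 : ∀ p ∈ P, (if (p : ℤ) ∣ D (a - (j : ℤ)) then 1 + C / (p : ℝ) else 1) =
        1 + (if (p : ℤ) ∣ D (a - (j : ℤ)) then C / (p : ℝ) else 0) := by
      intro p _
      split_ifs <;> simp
    rw [prod_congr rfl e2, prod_one_add]
    apply sum_congr rfl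
    intro s _
    by_cases hs : ∀ p ∈ s, (p : ℤ) ∣ D (a - (j : ℤ))
    · rw [if_pos hs, mul_one]
      apply prod_congr rfl
      intro p hp
      rw [if_pos (hs p hp)]
    · rw [if_neg hs, mul_zero]
      push Not at hs
      obtain ⟨p, hp, hpn⟩ := hs
      exact prod_eq_zero hp (if_neg hpn)
  rw [sum_congr rfl e1, sum_comm]
  have e3 : ∀ s ∈ P.powerset, ∑ j ∈ range X, (∏ p ∈ s, C / (p : ℝ)) *
      (if ∀ p ∈ s, (p : ℤ) ∣ D (a - (j : ℤ)) then 1 else 0) ≤
      X * (∏ p ∈ s, (C * d) / (p : ℝ) ^ 2) + ∏ p ∈ s, (C * d) / (p : ℝ) := by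
    intro s hs
    rw [mem_powerset] at hs
    rw [← mul_sum, sum_boole]
    have h1 := cnt_card D d s (fun p hp => (hPm p (hs hp)).1) (fun p hp => h p (hPm p (hs hp)).1)
      (fun p hp => hr p (hPm p (hs hp)).1 (hPm p (hs hp)).2.1) a X
    have h2 : (0 : ℝ) ≤ ∏ p ∈ s, C / (p : ℝ) := prod_nonneg fun p _ => by positivity
    refine (mul_le_mul_of_nonneg_left h1 h2).trans (le_of_eq ?_)
    have e4 : ∏ p ∈ s, (C * d) / (p : ℝ) ^ 2 = (∏ p ∈ s, C / (p : ℝ)) * ((d : ℝ) ^ s.card / ∏ p ∈ s, (p : ℝ)) := by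
      rw [← prod_const, ← prod_div_distrib, ← prod_mul_distrib]
      apply prod_congr rfl
      intro p hp
      have : (p : ℝ) ≠ 0 := by exact_mod_cast (hPm p (hs hp)).1.ne_zero
      field_simp
    have e5 : ∏ p ∈ s, (C * d) / (p : ℝ) = (∏ p ∈ s, C / (p : ℝ)) * (d : ℝ) ^ s.card := by
      rw [← prod_const, ← prod_mul_distrib]
      apply prod_congr rfl
      intro p _
      ring
    rw [e4, e5]
    ring
  refine (sum_le_sum e3).trans ?_
  rw [sum_add_distrib, ← mul_sum, ← prod_one_add, ← prod_one_add, mul_comm (X : ℝ)]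
  have f1 : ∏ p ∈ P, (1 + C * d / (p : ℝ) ^ 2) ≤ Real.exp (2 * (C * d)) := by
    calc ∏ p ∈ P, (1 + C * d / (p : ℝ) ^ 2) ≤ ∏ p ∈ P, Real.exp (C * d / (p : ℝ) ^ 2) := by
          apply Finset.prod_le_prod
          · intro p _
            positivity
          · intro p _
            linarith [Real.add_one_le_exp (C * d / (p : ℝ) ^ 2)]
      _ = Real.exp (∑ p ∈ P, C * d / (p : ℝ) ^ 2) := by rw [Real.exp_sum]
      _ ≤ _ := by
          apply Real.exp_le_exp.2
          have h1 := Pool.Agent.V8H2.MQ.sum_sq P (fun p hp => (hPm p hp).1.one_le)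
          calc ∑ p ∈ P, C * d / (p : ℝ) ^ 2 = (C * d) * ∑ p ∈ P, 1 / (p : ℝ) ^ 2 := by
                rw [mul_sum]
                apply sum_congr rfl
                intro p _
                ring
            _ ≤ (C * d) * 2 := by
                apply mul_le_mul_of_nonneg_left h1
                positivity
            _ = _ := by ring
  have f2 : ∏ p ∈ P, (1 + C * d / (p : ℝ)) ≤ Real.exp (C * d * (1 + Real.log y)) := by
    calc ∏ p ∈ P, (1 + C * d / (p : ℝ)) ≤ ∏ p ∈ P, Real.exp (C * d / (p : ℝ)) := by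
          apply Finset.prod_le_prod
          · intro p _
            positivity
          · intro p _
            linarith [Real.add_one_le_exp (C * d / (p : ℝ))]
      _ = Real.exp (∑ p ∈ P, C * d / (p : ℝ)) := by rw [Real.exp_sum]
      _ ≤ _ := by
          apply Real.exp_le_exp.2
          have h1 := inv_sum y P (fun p hp => ⟨(hPm p hp).1.one_le, (hPm p hp).2.2⟩) hy
          calc ∑ p ∈ P, C * d / (p : ℝ) = (C * d) * ∑ p ∈ P, 1 / (p : ℝ) := by
                rw [mul_sum]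
                apply sum_congr rfl
                intro p _
                ring
            _ ≤ (C * d) * (1 + Real.log y) := by
                apply mul_le_mul_of_nonneg_left h1
                positivity
  have hX : (0 : ℝ) ≤ X := Nat.cast_nonneg _
  nlinarith [mul_le_mul_of_nonneg_right f1 hX]

theorem log_bound (κ : ℝ) (hκ : 0 ≤ κ) (X : ℕ) (hX : 1 ≤ X) :
    Real.exp (κ * (1 + Real.log ((Nat.log 2 X + 1 : ℕ) : ℝ))) ≤
      Real.exp (2 + (κ + 1) * (2 + κ)) * X := by
  have hX0 : (0 : ℝ) < X := by exact_mod_cast hX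
  have hX1 : (1 : ℝ) ≤ X := by exact_mod_cast hX
  obtain ⟨y, hy⟩ : ∃ y : ℝ, y = ((Nat.log 2 X + 1 : ℕ) : ℝ) := ⟨_, rfl⟩
  have hy0 : 0 < y := by
    rw [hy]
    positivity
  have hlX : 0 ≤ Real.log X := Real.log_nonneg hX1
  have h1 : y ≤ 1 + 2 * Real.log X := by
    have h2 : ((2 ^ (Nat.log 2 X) : ℕ) : ℝ) ≤ X := by
      exact_mod_cast Nat.pow_log_le_self 2 (by omega)
    have h3 : (Nat.log 2 X : ℝ) * Real.log 2 ≤ Real.log X := by
      rw [← Real.log_pow]
      apply Real.log_le_log (by positivity)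
      exact_mod_cast h2
    have h4 : (0.5 : ℝ) < Real.log 2 := by
      have := Real.log_two_gt_d9
      linarith
    have h5 : (0 : ℝ) ≤ Nat.log 2 X := Nat.cast_nonneg _
    rw [hy]
    push_cast
    nlinarith
  rw [← hy]
  have h2 : Real.log y ≤ y / (2 * (κ + 1)) + Real.log (2 * (κ + 1)) := by
    have h3 : Real.log (y / (2 * (κ + 1))) ≤ y / (2 * (κ + 1)) := by
      have := Real.log_le_sub_one_of_pos (show 0 < y / (2 * (κ + 1)) by positivity)
      linarith
    rw [Real.log_div hy0.ne' (by positivity)] at h3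
    linarith
  have h3 : Real.log (2 * (κ + 1)) ≤ 1 + κ := by
    have h4 := Real.log_le_sub_one_of_pos (show 0 < κ + 1 by positivity)
    have h5 : Real.log 2 ≤ 1 := by
      have := Real.log_two_lt_d9
      linarith
    rw [Real.log_mul (by norm_num) (by positivity)]
    linarith
  have h4 : κ * (y / (2 * (κ + 1))) ≤ y / 2 := by
    rw [mul_div_assoc', div_le_div_iff₀ (by positivity) (by norm_num)]
    nlinarith
  have h5 : κ * (1 + Real.log y) ≤ (2 + (κ + 1) * (2 + κ)) + Real.log X := by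
    have h6 : κ * Real.log y ≤ κ * (y / (2 * (κ + 1)) + (1 + κ)) := by
      apply mul_le_mul_of_nonneg_left _ hκ
      linarith
    nlinarith
  calc Real.exp (κ * (1 + Real.log y)) ≤ Real.exp ((2 + (κ + 1) * (2 + κ)) + Real.log X) :=
        Real.exp_le_exp.2 h5
    _ = _ := by rw [Real.exp_add, Real.exp_log hX0]

/-- functions with few roots modulo the primes and polynomial growth have the average property -/
theorem Av_gen (d B k : ℕ) (hB : 0 < B)
    (h : ∀ p : ℕ, p.Prime → ∀ x : ℤ, (p : ℤ) ∣ D (x + p) - D x)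
    (hr : ∀ p : ℕ, p.Prime → ¬ p ∣ B → ((range p).filter (fun r : ℕ => (p : ℤ) ∣ D (r : ℤ))).card ≤ d)
    (hg : ∀ x : ℤ, |D x| ≤ B * (1 + |x|) ^ k) (hnz : ∀ x : ℤ, x ≠ 0 → D x ≠ 0) : Av D := by
  classical
  intro C hC
  obtain ⟨K, hK⟩ : ∃ K : ℕ, K = Nat.log 2 B + 1 + 4 * k := ⟨_, rfl⟩
  obtain ⟨κ, hκ⟩ : ∃ κ : ℝ, κ = C * d := ⟨_, rfl⟩
  have hκ0 : 0 ≤ κ := by
    rw [hκ]
    positivity
  refine ⟨(1 + C) ^ B * Real.exp (C * K) * (Real.exp (2 * κ) + Real.exp (2 + (κ + 1) * (2 + κ))), by positivity,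
    fun X a hX ha => ?_⟩
  obtain ⟨y, hy⟩ : ∃ y : ℕ, y = Nat.log 2 X + 1 := ⟨_, rfl⟩
  have hy1 : 1 ≤ y := by omega
  have hsize : ∀ j ∈ (range X).filter (fun j : ℕ => a - (j : ℤ) ≠ 0),
      Nat.log 2 (D (a - (j : ℤ))).natAbs ≤ K * y := by
    intro j hj
    rw [mem_filter, mem_range] at hj
    have h1 : |a - (j : ℤ)| ≤ 2 * X := by
      rw [abs_le] at ha ⊢
      constructor <;> omega
    have h2 : |D (a - (j : ℤ))| ≤ B * (4 * X) ^ k := by
      refine (hg _).trans ?_
      have h3 : (1 : ℤ) + |a - (j : ℤ)| ≤ 4 * X := by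
        have : (1 : ℤ) ≤ X := by exact_mod_cast hX
        linarith
      gcongr
    have h3 : (D (a - (j : ℤ))).natAbs ≤ B * (4 * X) ^ k := by
      have h4 : ((D (a - (j : ℤ))).natAbs : ℤ) ≤ ((B * (4 * X) ^ k : ℕ) : ℤ) := by
        rw [Int.natCast_natAbs]
        push_cast
        exact h2
      exact_mod_cast h4
    have h4 : B < 2 ^ (Nat.log 2 B + 1) := Nat.lt_pow_succ_log_self (by norm_num) B
    have h5 : X < 2 ^ y := by
      rw [hy]
      exact Nat.lt_pow_succ_log_self (by norm_num) X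
    have h6 : B * (4 * X) ^ k ≤ 2 ^ (K * y) := by
      calc B * (4 * X) ^ k ≤ 2 ^ (Nat.log 2 B + 1) * (2 ^ 2 * 2 ^ y) ^ k := by
            apply Nat.mul_le_mul h4.le
            apply Nat.pow_le_pow_left
            apply Nat.mul_le_mul (by norm_num) h5.le
        _ = 2 ^ ((Nat.log 2 B + 1) + (2 + y) * k) := by
            rw [← pow_add, ← pow_mul, ← pow_add]
        _ ≤ 2 ^ (K * y) := by
            apply Nat.pow_le_pow_right (by norm_num)
            rw [hK]
            have e1 : (Nat.log 2 B + 1) * 1 ≤ (Nat.log 2 B + 1) * y := Nat.mul_le_mul_left _ hy1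
            have e2 : k * 1 ≤ k * y := Nat.mul_le_mul_left _ hy1
            nlinarith
    have h7 := Nat.log_mono_right (b := 2) (h3.trans h6)
    rwa [Nat.log_pow (by norm_num)] at h7
  have key : ∀ j ∈ (range X).filter (fun j : ℕ => a - (j : ℤ) ≠ 0), Gm C (D (a - (j : ℤ))).natAbs ≤
      ((1 + C) ^ B * Real.exp (C * K)) * (∏ p ∈ (range (y + 1)).filter (fun p => p.Prime ∧ ¬ p ∣ B),
      (if (p : ℤ) ∣ D (a - (j : ℤ)) then 1 + C / (p : ℝ) else 1)) := by
    intro j hj
    have hs := hsize j hj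
    rw [mem_filter, mem_range] at hj
    have hne := hnz _ hj.2
    have h1 := gm_split C hC B y (D (a - (j : ℤ))).natAbs hB hy1 (Int.natAbs_pos.2 hne)
    have e1 : ∀ p ∈ (range (y + 1)).filter (fun p => p.Prime ∧ ¬ p ∣ B),
        (if p ∣ (D (a - (j : ℤ))).natAbs then 1 + C / (p : ℝ) else 1) =
        (if (p : ℤ) ∣ D (a - (j : ℤ)) then 1 + C / (p : ℝ) else 1) := by
      intro p _
      have : p ∣ (D (a - (j : ℤ))).natAbs ↔ (p : ℤ) ∣ D (a - (j : ℤ)) := Int.natCast_dvd.symm
      simp only [this]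
    rw [prod_congr rfl e1] at h1
    refine h1.trans ?_
    have h2 : Real.exp (C * ((Nat.log 2 (D (a - (j : ℤ))).natAbs : ℕ) / y)) ≤ Real.exp (C * K) := by
      apply Real.exp_le_exp.2
      apply mul_le_mul_of_nonneg_left _ hC
      rw [div_le_iff₀ (by exact_mod_cast hy1)]
      exact_mod_cast hs
    have h3 : 0 ≤ ∏ p ∈ (range (y + 1)).filter (fun p => p.Prime ∧ ¬ p ∣ B),
      (if (p : ℤ) ∣ D (a - (j : ℤ)) then 1 + C / (p : ℝ) else 1) := by
      apply prod_nonneg
      intro p _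
      split_ifs
      · positivity
      · norm_num
    have h4 : (0 : ℝ) ≤ (1 + C) ^ B := by positivity
    calc _ ≤ (1 + C) ^ B * (∏ p ∈ (range (y + 1)).filter (fun p => p.Prime ∧ ¬ p ∣ B),
          (if (p : ℤ) ∣ D (a - (j : ℤ)) then 1 + C / (p : ℝ) else 1)) * Real.exp (C * K) := by
          apply mul_le_mul_of_nonneg_left h2
          positivity
      _ = _ := by ring
  refine (sum_le_sum key).trans ?_
  rw [← mul_sum, mul_assoc ((1 + C) ^ B * Real.exp (C * K))]
  apply mul_le_mul_of_nonneg_left _ (by positivity)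
  have h1 := small_avg D C hC d B y hy1 h hr a X
  have h2 : ∑ j ∈ (range X).filter (fun j : ℕ => a - (j : ℤ) ≠ 0),
      (∏ p ∈ (range (y + 1)).filter (fun p => p.Prime ∧ ¬ p ∣ B),
      (if (p : ℤ) ∣ D (a - (j : ℤ)) then 1 + C / (p : ℝ) else 1)) ≤
      ∑ j ∈ range X, (∏ p ∈ (range (y + 1)).filter (fun p => p.Prime ∧ ¬ p ∣ B),
      (if (p : ℤ) ∣ D (a - (j : ℤ)) then 1 + C / (p : ℝ) else 1)) := by
    apply sum_le_sum_of_subset_of_nonneg (filter_subset _ _)
    intro j _ _
    apply prod_nonneg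
    intro p _
    split_ifs
    · positivity
    · norm_num
  have h3 := log_bound κ hκ0 X hX
  rw [← hy, hκ] at h3
  rw [hκ]
  have hX0 : (0 : ℝ) ≤ X := Nat.cast_nonneg _
  nlinarith [h1, h2, h3]

end

end Pool.Agent.V8H2.MG
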