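import Pool.Agent.V8H2.MG.Bad
import Pool.Agent.R498.MT.Count

/-!
Bounds for the products over the primes.
-/

set_option autoImplicit false

namespace Pool.Agent.V8H2.MG

open Finset Filter
open Pool.Agent.TH423.SH (PS)
open Pool.Agent.Y677.RSZ (rt Sys rhoT)
open Pool.Agent.V8H2.QW (GG GG_pos GG_le fac_pos)
open Pool.Agent.V8H2.MQ
open Pool.Agent.R498.MT (Vp)

/-- the density of the sifted set -/
noncomputable def vv (F : ℤ → ℤ) (W z : ℕ) : ℝ := ∏ p ∈ PS W z, (1 - (rt F p : ℝ) / (p : ℝ))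

theorem PS_mem (W z p : ℕ) (hp : p ∈ PS W z) : p.Prime ∧ p ≤ z ∧ ¬ p ∣ W := by
  unfold PS at hp
  rw [mem_filter, mem_Icc] at hp
  exact ⟨hp.2.1, hp.1.2, hp.2.2⟩

section
variable {g : ℕ} {F D : ℤ → ℤ} (hD : Dat g F D)
include hD

theorem vv_pos (W z : ℕ) : 0 < vv F W z := by
  unfold vv
  apply prod_pos
  intro p hp
  obtain ⟨h1, -, -⟩ := PS_mem W z p hp
  have hp0 : (0 : ℝ) < p := by exact_mod_cast h1.pos
  rw [sub_pos, div_lt_one hp0]
  exact_mod_cast (hD.sys.root p h1).2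

omit hD in
theorem vv_low (W z u : ℕ) (hu : ∀ p : ℕ, p.Prime → ¬ p ∣ W → rt F p ≤ u)
    (hW : ∀ p : ℕ, p.Prime → p ≤ 2 * u → p ∣ W) :
    Real.exp (-(2 * (u : ℝ) ^ 2)) * GG (z + 1) ^ u ≤ vv F W z := by
  unfold vv
  apply prod_low u z (PS W z) (fun p => (rt F p : ℝ))
  intro p hp
  obtain ⟨h1, h2, h3⟩ := PS_mem W z p hp
  refine ⟨h1, h2, ?_, Nat.cast_nonneg _, by exact_mod_cast hu p h1 h3⟩
  by_contra hcon
  exact h3 (hW p h1 (by omega))

theorem vv_up (W z l : ℕ) (hW0 : 0 < W) (hl : ∀ p : ℕ, p.Prime → ¬ p ∣ W → l ≤ rt F p)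
    (hW : ∀ p : ℕ, p.Prime → p ≤ l → p ∣ W) :
    vv F W z ≤ (∏ p ∈ W.primeFactors, (1 - 1 / (p : ℝ)) ^ l)⁻¹ * GG (z + 1) ^ l := by
  refine le_trans ?_ (prod_up l W z hW0 hW)
  unfold vv
  apply Finset.prod_le_prod
  · intro p hp
    obtain ⟨h1, h2, h3⟩ := PS_mem W z p hp
    have hp0 : (0 : ℝ) < p := by exact_mod_cast h1.pos
    rw [sub_nonneg, div_le_one hp0]
    exact_mod_cast (hD.sys.root p h1).2.le
  · intro p hp
    obtain ⟨h1, h2, h3⟩ := PS_mem W z p hp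
    have h4 : (l : ℝ) ≤ rt F p := by exact_mod_cast hl p h1 h3
    have h5 : (l : ℝ) / p ≤ rt F p / p := by gcongr
    linarith

theorem Vp_low' (W b z K : ℕ) (t : Fin K → ℕ) (hW : ∀ p : ℕ, p.Prime → p ≤ 2 * (g * K) → p ∣ W) :
    Real.exp (-(2 * ((g * K : ℕ) : ℝ) ^ 2)) * vv F W z ^ K ≤ Vp F W b z t := by
  unfold vv Vp
  have hfac : ∀ p ∈ PS W z, Real.exp (-(((g * K : ℕ) : ℝ) ^ 2 * (1 / (p : ℝ) ^ 2))) *
      (1 - (rt F p : ℝ) / (p : ℝ)) ^ K ≤ 1 - (rhoT F W b t p : ℝ) / p := by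
    intro p hp
    obtain ⟨h1, h2, h3⟩ := PS_mem W z p hp
    have hp0 : (0 : ℝ) < p := by exact_mod_cast h1.pos
    have hpg : 2 * (g * K) < p := by
      by_contra hcon
      exact h3 (hW p h1 (not_lt.1 hcon))
    have hr := (hD.sys.root p h1).1
    have hr2 := (hD.sys.root p h1).2
    obtain ⟨x, hx⟩ : ∃ x : ℝ, x = (rt F p : ℝ) / p := ⟨_, rfl⟩
    have hx0 : 0 ≤ x := by rw [hx]; positivity
    have hx1 : x ≤ 1 := by
      rw [hx, div_le_one hp0]
      exact_mod_cast hr2.le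
    have hKx : (K : ℝ) * x ≤ ((g * K : ℕ) : ℝ) / p := by
      rw [hx, ← mul_div_assoc]
      apply div_le_div_of_nonneg_right _ hp0.le
      have : K * rt F p ≤ g * K := by
        rw [mul_comm g K]
        exact Nat.mul_le_mul_left _ hr
      exact_mod_cast this
    have hhalf : ((g * K : ℕ) : ℝ) / p ≤ 1 / 2 := by
      rw [div_le_div_iff₀ hp0 (by norm_num)]
      have : (2 * (g * K) : ℕ) ≤ (p : ℝ) := by exact_mod_cast hpg.le
      push_cast at this ⊢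
      linarith
    have hKx0 : 0 ≤ (K : ℝ) * x := by positivity
    have h6 := exp_low (K * x) hKx0 (hKx.trans hhalf)
    have h7 : (1 - x) ^ K ≤ Real.exp (-(K * x)) := by
      have h8 : 1 - x ≤ Real.exp (-x) := by
        have := Real.add_one_le_exp (-x)
        linarith
      refine (pow_le_pow_left₀ (by linarith) h8 K).trans (le_of_eq ?_)
      rw [← Real.exp_nat_mul]
      congr 1
      ring
    have h9 : (rhoT F W b t p : ℝ) / p ≤ K * x := by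
      rw [hx, ← mul_div_assoc]
      apply div_le_div_of_nonneg_right _ hp0.le
      exact_mod_cast OmC_le' hD W b t p h1 h3
    have h10 : Real.exp (-(((g * K : ℕ) : ℝ) ^ 2 * (1 / (p : ℝ) ^ 2))) ≤
        Real.exp (-((K * x) ^ 2)) := by
      rw [Real.exp_le_exp, neg_le_neg_iff]
      have e : ((g * K : ℕ) : ℝ) ^ 2 * (1 / (p : ℝ) ^ 2) = (((g * K : ℕ) : ℝ) / p) ^ 2 := by
        rw [div_pow]
        ring
      rw [e]
      exact pow_le_pow_left₀ hKx0 hKx 2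
    rw [← hx]
    calc Real.exp (-(((g * K : ℕ) : ℝ) ^ 2 * (1 / (p : ℝ) ^ 2))) * (1 - x) ^ K
        ≤ Real.exp (-((K * x) ^ 2)) * Real.exp (-(K * x)) :=
          mul_le_mul h10 h7 (pow_nonneg (by linarith) _) (Real.exp_pos _).le
      _ = Real.exp (-(K * x + (K * x) ^ 2)) := by
          rw [← Real.exp_add]
          congr 1
          ring
      _ ≤ 1 - K * x := h6
      _ ≤ _ := by linarith
  have h1 : Real.exp (-(2 * ((g * K : ℕ) : ℝ) ^ 2)) ≤
      ∏ p ∈ PS W z, Real.exp (-(((g * K : ℕ) : ℝ) ^ 2 * (1 / (p : ℝ) ^ 2))) := by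
    rw [← Real.exp_sum, Real.exp_le_exp, sum_neg_distrib, ← mul_sum, neg_le_neg_iff, mul_comm 2]
    apply mul_le_mul_of_nonneg_left _ (by positivity)
    exact sum_sq (PS W z) fun p hp => (PS_mem W z p hp).1.one_le
  have hfp : ∀ p ∈ PS W z, 0 ≤ 1 - (rt F p : ℝ) / (p : ℝ) := by
    intro p hp
    obtain ⟨h1, h2, h3⟩ := PS_mem W z p hp
    have hp0 : (0 : ℝ) < p := by exact_mod_cast h1.pos
    rw [sub_nonneg, div_le_one hp0]
    exact_mod_cast (hD.sys.root p h1).2.le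
  calc Real.exp (-(2 * ((g * K : ℕ) : ℝ) ^ 2)) * (∏ p ∈ PS W z, (1 - (rt F p : ℝ) / (p : ℝ))) ^ K
      ≤ (∏ p ∈ PS W z, Real.exp (-(((g * K : ℕ) : ℝ) ^ 2 * (1 / (p : ℝ) ^ 2)))) *
        (∏ p ∈ PS W z, (1 - (rt F p : ℝ) / (p : ℝ))) ^ K := by
        apply mul_le_mul_of_nonneg_right h1
        exact pow_nonneg (prod_nonneg hfp) _
    _ = ∏ p ∈ PS W z, (Real.exp (-(((g * K : ℕ) : ℝ) ^ 2 * (1 / (p : ℝ) ^ 2))) *
        (1 - (rt F p : ℝ) / (p : ℝ)) ^ K) := by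
        rw [prod_mul_distrib, prod_pow]
    _ ≤ _ := by
        apply Finset.prod_le_prod
        · intro p hp
          exact mul_nonneg (Real.exp_pos _).le (pow_nonneg (hfp p hp) _)
        · exact hfac

end

end Pool.Agent.V8H2.MG
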