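import Pool.Agent.V8H2.MQ.Runs
import Pool.Agent.V8H2.MG.Prod

/-!
Many windows with several elements of the sifted set in one residue class and no others; general form.
-/

set_option autoImplicit false

namespace Pool.Agent.V8H2.MG

open Finset Filter
open Pool.Agent.R498.MT
open Pool.Agent.R498.MP
open Pool.Agent.Y677.RSZ (rt Sys rhoT per_mod ev_log poly_all)
open Pool.Agent.Y852.RSZ (per_dvd)
open Pool.Agent.TH423.SH (PS PIj)
open Pool.Agent.W23.DC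
open Pool.Agent.Y882
open Pool.Agent.V8H2.QW (GG GG_pos GG_le fac_pos)
open Pool.Agent.V8H2.MQ (c1g coreU exbq GG_size)

/-- the slots of a set -/
noncomputable def tT (k : ℕ) (T : Finset ℕ) : Fin (2 ^ k) → ℕ :=
  if h : T.card = 2 ^ k then T.orderEmbOfFin h else fun i => i

theorem tT_inj (k : ℕ) (T : Finset ℕ) : Function.Injective (tT k T) := by
  unfold tT
  split_ifs with h
  · exact (T.orderEmbOfFin h).injective
  · exact Fin.val_injective

theorem tT_mem (k : ℕ) (T : Finset ℕ) (h : T.card = 2 ^ k) (i : Fin (2 ^ k)) : tT k T i ∈ T := by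
  unfold tT
  rw [dif_pos h]
  exact Finset.orderEmbOfFin_mem T h i

theorem tT_sur (k : ℕ) (T : Finset ℕ) (h : T.card = 2 ^ k) (j : ℕ) (hj : j ∈ T) :
    ∃ i, tT k T i = j := by
  unfold tT
  rw [dif_pos h]
  have : j ∈ Set.range (T.orderEmbOfFin h) := by
    rw [Finset.range_orderEmbOfFin]
    exact hj
  exact this

/-- the number of the sets -/
theorem choose_low (H K : ℕ) (hH : 2 * K ≤ H) :
    ((H : ℝ) / 2) ^ K / K.factorial ≤ ((H.choose K : ℕ) : ℝ) := by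
  refine le_trans ?_ (Nat.pow_le_choose K H)
  apply div_le_div_of_nonneg_right _ (by positivity)
  apply pow_le_pow_left₀ (by positivity)
  have h1 : K ≤ H + 1 := by omega
  rw [Nat.cast_sub h1]
  have h2 : 2 * (K : ℝ) ≤ H := by exact_mod_cast hH
  push_cast
  linarith

/-- the sieving limit -/
noncomputable def zf (ε : ℝ) (N : ℕ) : ℕ := ⌈(N : ℝ) ^ ε⌉₊ - 1

theorem zf_spec (ε : ℝ) (N : ℕ) (hN : 0 < N) :
    (zf ε N : ℝ) < (N : ℝ) ^ ε ∧ (N : ℝ) ^ ε ≤ (zf ε N : ℝ) + 1 := by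
  have hN0 : (0 : ℝ) < N := by exact_mod_cast hN
  have h0 : 1 ≤ ⌈(N : ℝ) ^ ε⌉₊ := Nat.ceil_pos.2 (by positivity)
  obtain ⟨z, hz⟩ : ∃ z : ℕ, z = zf ε N := ⟨_, rfl⟩
  have hz1 : z + 1 = ⌈(N : ℝ) ^ ε⌉₊ := by
    rw [hz]
    unfold zf
    omega
  rw [← hz]
  constructor
  · have h1 := Nat.ceil_lt_add_one (show 0 ≤ (N : ℝ) ^ ε by positivity)
    rw [← hz1] at h1
    push_cast at h1
    linarith
  · have h1 := Nat.le_ceil ((N : ℝ) ^ ε)
    rw [← hz1] at h1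
    push_cast at h1
    exact h1

theorem nX (C C' K g P₀ X₀ : ℕ) (hC : 1 ≤ C) (hC' : 1 ≤ C')
    (hX : X₀ = (3 * (C * C) + 4 + 9 * (C' * C')) * (g + 1) + P₀) :
    C * (g * K + 2 * g + 1) ≤ X₀ * (K + 1) ∧ C' * (g + 1) ≤ X₀ * (K + 1) ∧
      2 * (g * K) ≤ X₀ * (K + 1) ∧ 2 * g ≤ X₀ * (K + 1) ∧ P₀ ≤ X₀ * (K + 1) ∧
      C' * (C' * (g + 1)) ≤ X₀ * (K + 1) ∧ C * (C * (g * K + 2 * g + 1)) ≤ X₀ * (K + 1) ∧
      2 ≤ X₀ * (K + 1) := by
  have hCC : C ≤ C * C := Nat.le_mul_of_pos_left _ hC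
  have hCC' : C' ≤ C' * C' := Nat.le_mul_of_pos_left _ hC'
  obtain ⟨Z, hZ⟩ : ∃ Z, Z = (g + 1) * (K + 1) := ⟨_, rfl⟩
  have eZ : Z = g * K + g + K + 1 := by rw [hZ]; ring
  have e : X₀ * (K + 1) = 3 * (C * C) * Z + 4 * Z + 9 * (C' * C') * Z + P₀ * (K + 1) := by
    rw [hX, hZ]
    ring
  have h5 : g * K + 2 * g + 1 ≤ 3 * Z := by omega
  have h6 : C * C * (g * K + 2 * g + 1) ≤ C * C * (3 * Z) := Nat.mul_le_mul_left _ h5
  have e3 : C * C * (3 * Z) = 3 * (C * C) * Z := by ring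
  have e4 : C * (C * (g * K + 2 * g + 1)) = C * C * (g * K + 2 * g + 1) := by ring
  have h7 : C * (g * K + 2 * g + 1) ≤ C * C * (g * K + 2 * g + 1) := Nat.mul_le_mul_right _ hCC
  have e5 : C' * (C' * (g + 1)) = C' * C' * (g + 1) := by ring
  have h8 : C' * (g + 1) ≤ C' * C' * (g + 1) := Nat.mul_le_mul_right _ hCC'
  have h9 : C' * C' * (g + 1) ≤ C' * C' * Z := Nat.mul_le_mul_left _ (by omega)
  have h10 : 9 * (C' * C') * Z = 9 * (C' * C' * Z) := by ring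
  have h11 : P₀ ≤ P₀ * (K + 1) := Nat.le_mul_of_pos_right _ (by omega)
  refine ⟨by omega, by omega, by omega, by omega, by omega, by omega, by omega, by omega⟩

theorem eps_bd (ε a X : ℝ) (hε : 0 < ε) (h1 : a ≤ X) (h2 : X * ε ≤ 1 / 12) : 2 * ε * a ≤ 1 / 2 := by
  have h3 : a * ε ≤ X * ε := mul_le_mul_of_nonneg_right h1 hε.le
  linarith

/-- the error term of the sieve -/
theorem err_bd (N J X C₁ : ℕ) (ε X' : ℝ) (hN : 1 ≤ (N : ℝ)) (hε : 0 < ε) (hX : ((X : ℕ) : ℝ) ≤ X')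
    (h2 : X' * ε ≤ 1 / 12) (hC₁ : C₁ = X) (hJ : ((2 : ℝ) ^ 2 ^ J) ≤ (N : ℝ) ^ (2 * ε)) :
    ((2 : ℝ) ^ 2 ^ J) ^ C₁ ≤ (N : ℝ) ^ (1 / 2 : ℝ) := by
  subst hC₁
  calc ((2 : ℝ) ^ 2 ^ J) ^ C₁ ≤ ((N : ℝ) ^ (2 * ε)) ^ C₁ := pow_le_pow_left₀ (by positivity) hJ _
    _ = (N : ℝ) ^ (2 * ε * (C₁ : ℝ)) := by
        rw [← Real.rpow_natCast, ← Real.rpow_mul (by linarith)]
    _ ≤ (N : ℝ) ^ (1 / 2 : ℝ) := by
        apply Real.rpow_le_rpow_of_exponent_le hN
        exact eps_bd _ _ _ hε hX h2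

theorem half_sq (N : ℝ) (hN : 0 < N) : N ^ (1 / 2 : ℝ) * N ^ (1 / 2 : ℝ) = N := by
  rw [← Real.rpow_add hN]
  norm_num

/-- the arithmetic of the main term -/
theorem arith1 (L V v A X η c : ℝ) (hL : 0 ≤ L) (hV : 0 ≤ V) (hv : 0 < v) (hA : 0 < A)
    (hX : X ≤ η / v) (hηA : 2 * A * η ≤ c / 4) :
    2 * (L * (V * v)) * (A * X) ≤ c / 4 * (L * V) := by
  have h1 : v * X ≤ η := by
    rw [le_div_iff₀ hv] at hX
    linarith
  have h2 : 0 ≤ L * V := mul_nonneg hL hV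
  calc 2 * (L * (V * v)) * (A * X) = 2 * A * (v * X) * (L * V) := by ring
    _ ≤ 2 * A * η * (L * V) := by gcongr
    _ ≤ c / 4 * (L * V) := mul_le_mul_of_nonneg_right hηA h2

/-- the arithmetic of the error term -/
theorem arith2 (L V N W X c c' Ev l r : ℝ) (hW : 0 < W) (hN : 0 < N)
    (hc : 0 < c) (hc' : 0 < c') (hl : 0 < l) (hr : 0 < r) (hL : N / (8 * W) ≤ L)
    (hX : X ≤ r) (hV : c' / l ≤ V) (hE : Ev ≤ N ^ (1 / 2 : ℝ)) (hE0 : 0 ≤ Ev)
    (h : 32 * W / (c * c') * (r * l) ≤ N ^ (1 / 2 : ℝ)) : X * Ev ≤ c / 4 * (L * V) := by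
  have h1 : c / 4 * (N / (8 * W) * (c' / l)) ≤ c / 4 * (L * V) := by
    have : 0 ≤ N / (8 * W) := by positivity
    have h2 : 0 ≤ L := this.trans hL
    have h3 : 0 ≤ c' / l := by positivity
    have h4 : N / (8 * W) * (c' / l) ≤ L * V := mul_le_mul hL hV h3 h2
    exact mul_le_mul_of_nonneg_left h4 (by positivity)
  refine le_trans ?_ h1
  have hS := half_sq N hN
  have hsq : 0 < N ^ (1 / 2 : ℝ) := by positivity
  calc X * Ev ≤ r * N ^ (1 / 2 : ℝ) := by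
        apply mul_le_mul hX hE hE0 hr.le
    _ = c * c' / (32 * W * l) * (32 * W / (c * c') * (r * l)) * N ^ (1 / 2 : ℝ) := by
        field_simp
    _ ≤ c * c' / (32 * W * l) * N ^ (1 / 2 : ℝ) * N ^ (1 / 2 : ℝ) := by gcongr
    _ = c * c' / (32 * W * l) * (N ^ (1 / 2 : ℝ) * N ^ (1 / 2 : ℝ)) := by ring
    _ = c * c' / (32 * W * l) * N := by rw [hS]
    _ = c / 4 * (N / (8 * W) * (c' / l)) := by
        field_simp
        ring

theorem density (g l u W : ℕ) (F D : ℤ → ℤ) (hD : Dat g F D) (hW0 : 0 < W) (ε : ℝ) (hε : 0 < ε)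
    (hl : ∀ p : ℕ, p.Prime → ¬ p ∣ W → l ≤ rt F p) (hu : ∀ p : ℕ, p.Prime → ¬ p ∣ W → rt F p ≤ u)
    (hWl : ∀ p : ℕ, p.Prime → p ≤ l → p ∣ W) (hWu : ∀ p : ℕ, p.Prime → p ≤ 2 * u → p ∣ W) :
    ∃ c₁ c₂ : ℝ, 0 < c₁ ∧ 0 < c₂ ∧ ∀ᶠ N : ℕ in atTop,
      c₁ / Real.log N ^ u ≤ vv F W (zf ε N) ∧ vv F W (zf ε N) ≤ c₂ / Real.log N ^ l := by
  obtain ⟨c₁, c₂, hc₁, hc₂, hGG⟩ := GG_size ε hε
  have hpos : 0 < ∏ p ∈ W.primeFactors, (1 - 1 / (p : ℝ)) ^ l :=
    prod_pos fun p hp => pow_pos (fac_pos p (Nat.prime_of_mem_primeFactors hp)).1 _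
  refine ⟨Real.exp (-(2 * (u : ℝ) ^ 2)) * c₁ ^ u,
    (∏ p ∈ W.primeFactors, (1 - 1 / (p : ℝ)) ^ l)⁻¹ * c₂ ^ l, by positivity,
    mul_pos (inv_pos.2 hpos) (pow_pos hc₂ _), ?_⟩
  filter_upwards [hGG, eventually_ge_atTop 3] with N hN hN3
  obtain ⟨z1, z2⟩ := zf_spec ε N (by omega)
  obtain ⟨g1, g2⟩ := hN _ z1 z2
  have hlN : 0 < Real.log N := Real.log_pos (by
    have : (3 : ℝ) ≤ N := by exact_mod_cast hN3
    linarith)
  constructor
  · refine le_trans ?_ (vv_low W (zf ε N) u hu hWu)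
    rw [mul_div_assoc, ← div_pow]
    apply mul_le_mul_of_nonneg_left _ (Real.exp_pos _).le
    exact pow_le_pow_left₀ (by positivity) g1 u
  · refine (vv_up hD W (zf ε N) l hW0 hl hWl).trans ?_
    rw [mul_div_assoc, ← div_pow]
    apply mul_le_mul_of_nonneg_left _ (inv_pos.2 hpos).le
    exact pow_le_pow_left₀ (GG_pos _).le g2 l

/-- the upper bound for the number of the elements of the sifted set -/
theorem upper (g W C' : ℕ) (F D : ℤ → ℤ) (hD : Dat g F D)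
    (hup : ∀ κ b W : ℕ, C' * (κ + 1) ≤ b →
      (∀ p : ℕ, p.Prime → p ≤ C' * (κ + 1) → p ∣ W) →
      ∀ J z M L : ℕ, z ≤ 2 ^ 2 ^ J → ∀ Om : ℕ → Finset ℕ,
      (∀ p ∈ PS W z, (Om p).card ≤ κ ∧ ∀ c ∈ Om p, c < p) →
      |(((Ioc M (M + L)).filter (fun n => ∀ p ∈ PS W z, n % p ∉ Om p)).card : ℝ) -
        (L : ℝ) * ∏ p ∈ PS W z, (1 - ((Om p).card : ℝ) / p)| ≤
      (1 / 2 : ℝ) ^ b * ((L : ℝ) * ∏ p ∈ PS W z, (1 - ((Om p).card : ℝ) / p)) +
        ((2 : ℝ) ^ 2 ^ J) ^ (C' * b))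
    (hWC' : ∀ p : ℕ, p.Prime → p ≤ C' * (g + 1) → p ∣ W)
    (ε X' c₁ : ℝ) (hε : 0 < ε) (hX : ((C' * (C' * (g + 1)) : ℕ) : ℝ) ≤ X') (h2 : X' * ε ≤ 1 / 12)
    (hc₁ : 0 < c₁) (hv : ∀ᶠ N : ℕ in atTop, c₁ / Real.log N ^ g ≤ vv F W (zf ε N)) :
    ∀ᶠ N : ℕ in atTop, ∀ A : Finset ℕ, A ⊆ Ioc N (2 * N) → (∀ n ∈ A, ∀ p : ℕ, p.Prime →
      (p : ℝ) < (N : ℝ) ^ ε → ¬ (p : ℤ) ∣ F (n : ℤ)) → (A.card : ℝ) ≤ 3 * (N * vv F W (zf ε N)) := by
  obtain ⟨Y2, hY2⟩ := exJ ε hε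
  have hlog := ev_log g (1 / c₁) (1 / 2) (by norm_num)
  filter_upwards [hv, hlog, eventually_ge_atTop (max Y2 3)] with N hN hNlog hNY
  intro A hA hAr
  have hN3 : 3 ≤ N := (le_max_right _ _).trans hNY
  have hNr : (3 : ℝ) ≤ N := by exact_mod_cast hN3
  have hN0 : (0 : ℝ) < N := by linarith
  have hN1 : (1 : ℝ) ≤ N := by linarith
  have hlN : 0 < Real.log N := Real.log_pos (by linarith)
  obtain ⟨J, hJ1, hJ2⟩ := hY2 N ((le_max_left _ _).trans hNY)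
  obtain ⟨hz1, hz2⟩ := zf_spec ε N (by omega)
  obtain ⟨z, hz⟩ : ∃ z, z = zf ε N := ⟨_, rfl⟩
  rw [← hz] at hz1 hz2 hN ⊢
  have hzJ : z ≤ 2 ^ 2 ^ J := by
    have : (z : ℝ) < 2 ^ 2 ^ J := hz1.trans_le hJ1
    have h2 : z < 2 ^ 2 ^ J := by exact_mod_cast this
    exact h2.le
  have g3 := hup g (C' * (g + 1)) W le_rfl hWC' J z N N hzJ
    (fun p => (range p).filter (fun r : ℕ => (p : ℤ) ∣ F r))
    (fun p hp => ⟨(hD.sys.root p (PS_mem W z p hp).1).1, fun c hc => mem_range.1 (mem_filter.1 hc).1⟩)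
  have hsub : A ⊆ (Ioc N (N + N)).filter
      (fun n => ∀ p ∈ PS W z, n % p ∉ (range p).filter (fun r : ℕ => (p : ℤ) ∣ F r)) := by
    intro n hn
    have hn' := mem_Ioc.1 (hA hn)
    rw [mem_filter, mem_Ioc]
    refine ⟨⟨hn'.1, by omega⟩, ?_⟩
    intro p hp
    obtain ⟨q1, q2, q3⟩ := PS_mem W z p hp
    have hpz : (p : ℝ) < (N : ℝ) ^ ε := by
      have : (p : ℝ) ≤ z := by exact_mod_cast q2
      linarith
    intro hmem
    apply hAr n hn p q1 hpz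
    refine (per_dvd (hD.sys.per p q1) ?_).2 (mem_filter.1 hmem).2
    have h3 := Nat.div_add_mod n p
    refine ⟨((n / p : ℕ) : ℤ), ?_⟩
    have h4 : (n : ℤ) = p * ((n / p : ℕ) : ℤ) + ((n % p : ℕ) : ℤ) := by exact_mod_cast h3.symm
    linarith
  have h1 : (A.card : ℝ) ≤ (((Ioc N (N + N)).filter
      (fun n => ∀ p ∈ PS W z, n % p ∉ (range p).filter (fun r : ℕ => (p : ℤ) ∣ F r))).card : ℝ) := by
    exact_mod_cast card_le_card hsub
  have e1 : ∏ p ∈ PS W z, (1 - ((((range p).filter (fun r : ℕ => (p : ℤ) ∣ F r)).card : ℕ) : ℝ) / p) =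
      vv F W z := rfl
  rw [e1, abs_le] at g3
  have g4 := g3.2
  have hv0 := vv_pos hD W z
  have hhalf : (1 / 2 : ℝ) ^ (C' * (g + 1)) ≤ 1 := pow_le_one₀ (by norm_num) (by norm_num)
  have hNv : 0 ≤ (N : ℝ) * vv F W z := by positivity
  have g5 : (1 / 2 : ℝ) ^ (C' * (g + 1)) * ((N : ℝ) * vv F W z) ≤ 1 * ((N : ℝ) * vv F W z) :=
    mul_le_mul_of_nonneg_right hhalf hNv
  have h7 := err_bd N J (C' * (C' * (g + 1))) _ ε X' hN1 hε hX h2 rfl hJ2
  have h8 : (N : ℝ) ^ (1 / 2 : ℝ) ≤ N * vv F W z := by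
    have h9 : Real.log N ^ g ≤ c₁ * (N : ℝ) ^ (1 / 2 : ℝ) := by
      rw [div_mul_eq_mul_div, one_mul, div_le_iff₀ hc₁] at hNlog
      linarith
    have hS := half_sq (N : ℝ) hN0
    have hsq : 0 < (N : ℝ) ^ (1 / 2 : ℝ) := by positivity
    have h10 : 1 ≤ (N : ℝ) ^ (1 / 2 : ℝ) * vv F W z := by
      rw [div_le_iff₀ (by positivity)] at hN
      have h11 : c₁ ≤ vv F W z * (c₁ * (N : ℝ) ^ (1 / 2 : ℝ)) :=
        hN.trans (mul_le_mul_of_nonneg_left h9 hv0.le)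
      have h12 : c₁ * 1 ≤ c₁ * ((N : ℝ) ^ (1 / 2 : ℝ) * vv F W z) := by linarith
      exact le_of_mul_le_mul_left h12 hc₁
    calc (N : ℝ) ^ (1 / 2 : ℝ) = (N : ℝ) ^ (1 / 2 : ℝ) * 1 := by ring
      _ ≤ (N : ℝ) ^ (1 / 2 : ℝ) * ((N : ℝ) ^ (1 / 2 : ℝ) * vv F W z) := by gcongr
      _ = ((N : ℝ) ^ (1 / 2 : ℝ) * (N : ℝ) ^ (1 / 2 : ℝ)) * vv F W z := by ring
      _ = N * vv F W z := by rw [hS]
  linarith

open Classical in
theorem windows (g : ℕ) (hg1 : 1 ≤ g) (F D : ℤ → ℤ) (hD : Dat g F D) (l u P₀ : ℕ) (hl1 : 1 ≤ l)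
    (hlg : l ≤ 2 * g) (hug : u ≤ g) (hl : ∀ p : ℕ, p.Prime → P₀ < p → l ≤ rt F p)
    (hu : ∀ p : ℕ, p.Prime → P₀ < p → rt F p ≤ u) (m q a : ℕ) (hq : 0 < q)
    (ha : ∀ p : ℕ, p.Prime → p ∣ q → ¬ (p : ℤ) ∣ F (a : ℤ)) :
    ∃ (W b : ℕ) (δ c₁ c₂ : ℝ), 0 < W ∧ q ∣ W ∧ b ≤ 2 * W ∧ b ≡ a [MOD q] ∧ 0 < δ ∧
      δ ≤ 1 / 24 ∧ 0 < c₁ ∧ 0 < c₂ ∧
      (∀ᶠ N : ℕ in atTop, c₁ / Real.log N ^ u ≤ vv F W (zf δ N) ∧
        vv F W (zf δ N) ≤ c₂ / Real.log N ^ l) ∧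
      (∀ᶠ N : ℕ in atTop, ∀ A : Finset ℕ, A ⊆ Ioc N (2 * N) → (∀ n ∈ A, ∀ p : ℕ, p.Prime →
        (p : ℝ) < (N : ℝ) ^ δ → ¬ (p : ℤ) ∣ F (n : ℤ)) →
        (A.card : ℝ) ≤ 3 * (N * vv F W (zf δ N))) ∧
      ∀ η : ℝ, 0 < η → ∃ c : ℝ, 0 < c ∧ ∀ᶠ N : ℕ in atTop, ∃ (H : ℕ) (U : Finset ℕ),
      ((W * H : ℕ) : ℝ) ≤ η / vv F W (zf δ N) ∧ 0 < H ∧ c * N ≤ U.card ∧
      ∀ x ∈ U, N < W * x ∧ W * x + b + W * H ≤ 2 * N ∧
        ∃ T ⊆ range H, m < (T.filter (fun j => (W * (x + j) + b).Prime)).card ∧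
          (∀ j ∈ T, ∀ p : ℕ, p.Prime → (p : ℝ) < (N : ℝ) ^ δ →
            ¬ (p : ℤ) ∣ F ((W * (x + j) + b : ℕ) : ℤ)) ∧
          ∀ j < W * H, (∀ p : ℕ, p.Prime → (p : ℝ) < (N : ℝ) ^ δ → ¬ p ∣ W →
            ¬ (p : ℤ) ∣ F ((W * x + (b + j) : ℕ) : ℤ)) → ∃ i ∈ T, j = W * i := by
  obtain ⟨C, hC1, hbad⟩ := bad_le
  obtain ⟨C', hC'1, hup⟩ := c1g
  obtain ⟨X₀, hX₀⟩ : ∃ X₀, X₀ = (3 * (C * C) + 4 + 9 * (C' * C')) * (g + 1) + P₀ := ⟨_, rfl⟩
  obtain ⟨k, W₀, W, hW0, hW₀sq, hW₀0, hWeq, hWX, hWp, hgW, ε₁, c, hε, hε24, hεX, hc, hcore, -⟩ :=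
    coreU F g hD.sys hD.fid m q X₀ hq
  have hWX' : ∀ p : ℕ, p.Prime → p ≤ X₀ * (2 ^ k + 1) → p ∣ W := by
    intro p hp hpX
    rw [hWeq]
    exact (hWX p hp hpX).mul_left _
  obtain ⟨K, hK⟩ : ∃ K, K = 2 ^ k := ⟨_, rfl⟩
  rw [← hK] at hWX'
  have hK1 : 1 ≤ K := by rw [hK]; exact Nat.one_le_two_pow
  have hKr : ((K : ℕ) : ℝ) = 2 ^ k := by rw [hK]; push_cast; rfl
  obtain ⟨x1, x2, x3, x4, x5, x6, x7, x8⟩ := nX C C' K g P₀ X₀ hC1 hC'1 hX₀
  have h2W : 2 ∣ W := hWX' 2 Nat.prime_two x8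
  have hεX' : (X₀ : ℝ) * (K + 1) * ε₁ ≤ 1 / 12 := by rw [hKr]; exact hεX
  obtain ⟨A₁, hA₁, hbad1⟩ := hbad g K hg1 F D hD
  have hbad2 := hbad1 W (fun p hp hpC => hWX' p hp (hpC.trans x1))
  have hWP : ∀ p : ℕ, p.Prime → ¬ p ∣ W → P₀ < p := by
    intro p hp hpW
    by_contra hcon
    exact hpW (hWX' p hp ((not_lt.1 hcon).trans x5))
  obtain ⟨c₁, c₂, hc₁, hc₂, hdens'⟩ := density g l u W F D hD hW0 ε₁ hε
    (fun p hp hpW => hl p hp (hWP p hp hpW)) (fun p hp hpW => hu p hp (hWP p hp hpW))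
    (fun p hp hpl => hWX' p hp (by omega)) (fun p hp hpl => hWX' p hp (by omega))
  have hdens : ∀ᶠ N : ℕ in atTop, c₁ / Real.log N ^ g ≤ vv F W (zf ε₁ N) ∧
      vv F W (zf ε₁ N) ≤ c₂ / Real.log N ^ l := by
    have hlogT : Tendsto (fun N : ℕ => Real.log N) atTop atTop :=
      Real.tendsto_log_atTop.comp (tendsto_natCast_atTop_atTop (R := ℝ))
    filter_upwards [hdens', hlogT.eventually_ge_atTop 1] with N hN hN1
    refine ⟨le_trans ?_ hN.1, hN.2⟩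
    have h1 : Real.log N ^ u ≤ Real.log N ^ g := pow_le_pow_right₀ hN1 hug
    have h2 : 0 < Real.log (N : ℝ) := by linarith
    gcongr
  obtain ⟨b, hbW, hbq, hb⟩ := exbq hD.sys q W₀ W a hq hW₀0 hW₀sq hWeq ha
  obtain ⟨cV, hcV⟩ : ∃ cV : ℝ, cV = Real.exp (-(2 * ((g * K : ℕ) : ℝ) ^ 2)) := ⟨_, rfl⟩
  have hcV0 : 0 < cV := by rw [hcV]; positivity
  have hX6 : ((C' * (C' * (g + 1)) : ℕ) : ℝ) ≤ X₀ * (K + 1) := by exact_mod_cast x6
  have hX7 : ((C * (C * (g * K + 2 * g + 1)) : ℕ) : ℝ) ≤ X₀ * (K + 1) := by exact_mod_cast x7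
  refine ⟨W, b, ε₁, c₁, c₂, hW0, by rw [hWeq]; exact dvd_mul_right _ _, by omega,
    hbq, hε, hε24, hc₁, hc₂, hdens', ?_, ?_⟩
  · exact upper g W C' F D hD hup (fun p hp hpC => hWX' p hp (hpC.trans x2)) ε₁ _ c₁ hε hX6 hεX' hc₁
      (hdens.mono fun N hN => hN.1)
  · intro η₀ hη₀
    obtain ⟨η, hη⟩ : ∃ η : ℝ, η = min η₀ (c / (8 * A₁)) := ⟨_, rfl⟩
    have hη0 : 0 < η := by rw [hη]; exact lt_min hη₀ (by positivity)
    have hηη₀ : η ≤ η₀ := by rw [hη]; exact min_le_left _ _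
    have hηA : 2 * A₁ * η ≤ c / 4 := by
      have h1 : η ≤ c / (8 * A₁) := by rw [hη]; exact min_le_right _ _
      rw [le_div_iff₀ (by positivity)] at h1
      linarith
    have hW0r : (0 : ℝ) < W := by exact_mod_cast hW0
    obtain ⟨cF, hcF⟩ : ∃ cF : ℝ, cF = (η / (4 * W)) ^ K / K.factorial *
      (c / 2 * cV) / (8 * W) := ⟨_, rfl⟩
    have hcF0 : 0 < cF := by rw [hcF]; positivity
    refine ⟨cF, hcF0, ?_⟩
    obtain ⟨Yc, hYc⟩ := hcore (g + 1)
    obtain ⟨Y2, hY2⟩ := exJ ε₁ hε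
    have hT := tendsto_natCast_atTop_atTop (R := ℝ)
    have hlogT : Tendsto (fun N : ℕ => Real.log N) atTop atTop :=
      Real.tendsto_log_atTop.comp hT
    obtain ⟨R₀, hR₀⟩ : ∃ R₀ : ℝ, R₀ = 2 * W * (2 * K + 1) := ⟨_, rfl⟩
    have hR₀0 : 0 < R₀ := by rw [hR₀]; positivity
    have hev1 : ∀ᶠ N : ℕ in atTop, η / c₁ + 1 + R₀ * c₂ / η ≤ Real.log N :=
      hlogT.eventually_ge_atTop _
    have hev2 := ev_log (g + g * K) (32 * W / (c * (cV * c₁ ^ K)) * (η / c₁)) (1 / 2) (by norm_num)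
    have hev3 := ev_log g (8 * (η / c₁)) 1 one_pos
    have hW2 : 2 ≤ W := Nat.le_of_dvd hW0 h2W
    filter_upwards [hdens, hev1, hev2, hev3, numsE W 0 b (max Yc Y2) 0 0 0 0 hW2 hW0,
      eventually_ge_atTop (8 * b + 16)] with N hNd hN1 hN2 hN3 hN4 hN5
    obtain ⟨n1, n2, n3, n4, n5, n6, n7, n8, n9, n10⟩ := hN4
    rw [add_zero] at n5 n9
    obtain ⟨M, hM⟩ : ∃ M : ℕ, M = N / W := ⟨_, rfl⟩
    obtain ⟨L, hL⟩ : ∃ L : ℕ, L = N / (2 * W) := ⟨_, rfl⟩
    rw [← hM, ← hL] at n5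
    rw [← hL] at n6 n7 n8 n9
    have hNr : (16 : ℝ) ≤ N := by exact_mod_cast n2
    have hN0 : (0 : ℝ) < N := by linarith
    have hN1r : (1 : ℝ) ≤ N := by linarith
    have hd0 : 0 ≤ η / c₁ := by positivity
    have hd1 : 0 ≤ R₀ * c₂ / η := by positivity
    have hlN1 : 1 ≤ Real.log N := by linarith
    have hlN : 0 < Real.log N := by linarith
    -- the sieving limit
    obtain ⟨J, hJ1, hJ2⟩ := hY2 N ((le_max_right _ _).trans n1)
    obtain ⟨hz1, hz2⟩ := zf_spec ε₁ N (by omega)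
    obtain ⟨z, hz⟩ : ∃ z : ℕ, z = zf ε₁ N := ⟨_, rfl⟩
    rw [← hz] at hz1 hz2 hNd ⊢
    have hzJ : z ≤ 2 ^ 2 ^ J := by
      have : (z : ℝ) < 2 ^ 2 ^ J := hz1.trans_le hJ1
      have h2 : z < 2 ^ 2 ^ J := by exact_mod_cast this
      exact h2.le
    obtain ⟨v, hv⟩ : ∃ v : ℝ, v = vv F W z := ⟨_, rfl⟩
    have hv0 : 0 < v := by rw [hv]; exact vv_pos hD W z
    have hVlow : ∀ t : Fin (2 ^ k) → ℕ, cV * v ^ K ≤ Vp F W b z t := by
      intro t
      have h1 := Vp_low' hD W b z (2 ^ k) t (fun p hp hpK => hWX' p hp (by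
        rw [← hK] at hpK
        omega))
      rw [hcV, hv, hK]
      exact h1
    rw [← hv] at hNd ⊢
    obtain ⟨hv1, hv2⟩ := hNd
    -- the length of the windows
    obtain ⟨H, hH⟩ : ∃ H : ℕ, H = ⌊η / v / W⌋₊ := ⟨_, rfl⟩
    have hy0 : 0 ≤ η / v / W := by positivity
    have hHle : (H : ℝ) ≤ η / v / W := by
      rw [hH]
      exact Nat.floor_le hy0
    have hWH : ((W * H : ℕ) : ℝ) ≤ η / v := by
      rw [le_div_iff₀ hW0r] at hHle
      push_cast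
      linarith
    have hηv : η / v ≤ η / c₁ * Real.log N ^ g := by
      rw [div_le_iff₀ hv0]
      rw [div_le_iff₀ (by positivity)] at hv1
      calc η = η / c₁ * c₁ := by field_simp
        _ ≤ η / c₁ * (v * Real.log N ^ g) := by gcongr
        _ = η / c₁ * Real.log N ^ g * v := by ring
    have hbigl : R₀ ≤ η / v := by
      rw [le_div_iff₀ hv0]
      have h1 : Real.log N ≤ Real.log N ^ l := by
        calc Real.log N = Real.log N ^ 1 := (pow_one _).symm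
          _ ≤ Real.log N ^ l := pow_le_pow_right₀ hlN1 hl1
      have h2 : v ≤ c₂ / Real.log N := hv2.trans (by gcongr)
      have h3 : R₀ * c₂ / η ≤ Real.log N := by linarith
      rw [div_le_iff₀ hη0] at h3
      calc R₀ * v ≤ R₀ * (c₂ / Real.log N) := by gcongr
        _ = (R₀ * c₂) / Real.log N := by ring
        _ ≤ η := by
            rw [div_le_iff₀ hlN]
            linarith
    have hHlow : η / v / (2 * W) ≤ H := by
      have h1 : η / v / W < H + 1 := by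
        rw [hH]
        exact Nat.lt_floor_add_one _
      have h2 : (2 : ℝ) ≤ η / v / W := by
        rw [le_div_iff₀ hW0r]
        refine le_trans ?_ hbigl
        rw [hR₀]
        have h3 : (0 : ℝ) ≤ 2 * W * (2 * K) := by positivity
        linarith
      have h3 : η / v / (2 * W) = η / v / W / 2 := by
        rw [div_div (η / v) (W : ℝ) 2]
        congr 1
        ring
      rw [h3]
      linarith
    have hH2K : 2 * K ≤ H := by
      have h1 : ((2 * K : ℕ) : ℝ) ≤ H := by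
        refine le_trans ?_ hHlow
        rw [le_div_iff₀ (by positivity)]
        refine le_trans ?_ hbigl
        rw [hR₀]
        push_cast
        linarith
      exact_mod_cast h1
    have hHpos : 0 < H := by omega
    have hWHN : 8 * (W * H) ≤ N := by
      rw [Real.rpow_one] at hN3
      have h1 : ((8 * (W * H) : ℕ) : ℝ) ≤ N := by
        push_cast
        push_cast at hWH
        linarith
      exact_mod_cast h1
    have hHlogA : (H : ℝ) ≤ Real.log N ^ (g + 1) := by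
      refine hHle.trans ?_
      have h1 : η / c₁ ≤ Real.log N := by linarith
      have hW1 : (1 : ℝ) ≤ W := by exact_mod_cast hW0
      calc η / v / W ≤ η / v := div_le_self (by positivity) hW1
        _ ≤ η / c₁ * Real.log N ^ g := hηv
        _ ≤ Real.log N * Real.log N ^ g := by gcongr
        _ = Real.log N ^ (g + 1) := by ring
    -- the sets of slots
    obtain ⟨TT, hTT⟩ : ∃ TT, TT = powersetCard (2 ^ k) (range H) := ⟨_, rfl⟩
    obtain ⟨G, hG⟩ : ∃ G : Finset ℕ → Finset ℕ, G = fun T =>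
      R498.MP.gp F N ε₁ W b (tT k T) m M L \ BadS F W b z (W * H) M L (tT k T) := ⟨_, rfl⟩
    have hmemT : ∀ T ∈ TT, T ⊆ range H ∧ T.card = 2 ^ k := by
      intro T hT
      rw [hTT, mem_powersetCard] at hT
      exact hT
    have hslot : ∀ T ∈ TT, ∀ i, tT k T i < H := by
      intro T hT i
      obtain ⟨h1, h2⟩ := hmemT T hT
      exact mem_range.1 (h1 (tT_mem k T h2 i))
    have hgpmem : ∀ T ∈ TT, ∀ x ∈ G T, x ∈ Ioc M (M + L) ∧
        (∀ j ∈ T, ∀ p : ℕ, p.Prime → (p : ℝ) < (N : ℝ) ^ ε₁ →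
            ¬ (p : ℤ) ∣ F ((W * (x + j) + b : ℕ) : ℤ)) ∧
        m < (T.filter (fun j => (W * (x + j) + b).Prime)).card ∧
        ∀ j < W * H, (∀ p : ℕ, p.Prime → (p : ℝ) < (N : ℝ) ^ ε₁ → ¬ p ∣ W →
            ¬ (p : ℤ) ∣ F ((W * x + (b + j) : ℕ) : ℤ)) → ∃ i ∈ T, j = W * i := by
      intro T hT x hx
      obtain ⟨t1, t2⟩ := hmemT T hT
      rw [hG] at hx
      obtain ⟨hx1, hx2⟩ := mem_sdiff.1 hx
      unfold R498.MP.gp at hx1
      rw [mem_filter] at hx1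
      obtain ⟨y1, y2, y3⟩ := hx1
      refine ⟨y1, ?_, ?_, ?_⟩
      · intro j hj p hp hpN
        obtain ⟨i, hi⟩ := tT_sur k T t2 j hj
        rw [← hi]
        exact y2 p hp hpN i
      · refine lt_of_lt_of_le y3 ?_
        refine card_le_card_of_injOn (tT k T) ?_ (fun i _ j _ hij => tT_inj k T hij)
        intro i hi
        have hi' : (W * (x + tT k T i) + b).Prime := by
          have := (mem_filter.1 (mem_coe.1 hi)).2
          exact this
        rw [mem_coe, mem_filter]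
        exact ⟨tT_mem k T t2 i, hi'⟩
      · intro j hj hrough
        by_contra hcon
        push Not at hcon
        apply hx2
        unfold BadS
        rw [mem_filter]
        refine ⟨y1, ?_, j, hj, ?_, ?_⟩
        · intro p hp i
          obtain ⟨q1, q2, q3⟩ := PS_mem W z p hp
          have hpz : (p : ℝ) < (N : ℝ) ^ ε₁ := by
            have : (p : ℝ) ≤ z := by exact_mod_cast q2
            linarith
          exact y2 p q1 hpz i
        · intro i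
          exact hcon _ (tT_mem k T t2 i)
        · intro p hp
          obtain ⟨q1, q2, q3⟩ := PS_mem W z p hp
          have hpz : (p : ℝ) < (N : ℝ) ^ ε₁ := by
            have : (p : ℝ) ≤ z := by exact_mod_cast q2
            linarith
          exact hrough p q1 hpz q3
    have hdisj : (TT : Set (Finset ℕ)).PairwiseDisjoint G := by
      intro T hT T' hT' hne
      rw [mem_coe] at hT hT'
      rw [Function.onFun, Finset.disjoint_left]
      intro x hx hx'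
      apply hne
      obtain ⟨t1, t2⟩ := hmemT T hT
      obtain ⟨t1', t2'⟩ := hmemT T' hT'
      symm
      apply Finset.eq_of_subset_of_card_le _ (by rw [t2, t2'])
      intro j hj
      have hjH := mem_range.1 (t1' hj)
      obtain ⟨-, -, -, h4⟩ := hgpmem T hT x hx
      obtain ⟨-, h5, -, -⟩ := hgpmem T' hT' x hx'
      have hWj : W * j < W * H := (Nat.mul_lt_mul_left hW0).2 hjH
      obtain ⟨i, hi, hij⟩ := h4 (W * j) hWj (fun p hp hpN _ => by
        have h6 := h5 j hj p hp hpN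
        have e : W * x + (b + W * j) = W * (x + j) + b := by ring
        rw [e]
        exact h6)
      have hii : i = j := (Nat.eq_of_mul_eq_mul_left hW0 hij).symm
      rw [← hii]
      exact hi
    -- the size
    have hL1 : 1 ≤ L := by
      rcases Nat.eq_zero_or_pos L with h | h
      · rw [h, mul_zero, Nat.cast_zero] at n7
        have : (0 : ℝ) < (N : ℝ) ^ (1 / 2 : ℝ) := by positivity
        linarith
      · exact h
    have hLr : (1 : ℝ) ≤ L := by exact_mod_cast hL1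
    have hLN : (N : ℝ) / (8 * W) ≤ L := by
      obtain ⟨w1, w2, w3, w4, w5⟩ := n5
      have h1 : N ≤ L * (8 * W) := by
        have e : L * (8 * W) = 8 * (W * L) := by ring
        omega
      rw [div_le_iff₀ (by positivity)]
      exact_mod_cast h1
    have hvK : cV * c₁ ^ K / Real.log N ^ (g * K) ≤ cV * v ^ K := by
      rw [mul_div_assoc, pow_mul, ← div_pow]
      apply mul_le_mul_of_nonneg_left _ hcV0.le
      exact pow_le_pow_left₀ (by positivity) hv1 K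
    have hsize : ∀ T ∈ TT, c / 2 * cV * (L * v ^ K) ≤ ((G T).card : ℝ) := by
      intro T hT
      obtain ⟨t1, t2⟩ := hmemT T hT
      obtain ⟨u1, u2, -⟩ := hYc N ((le_max_left _ _).trans n1) (tT k T) (tT_inj k T)
        (fun i => le_trans (by exact_mod_cast (hslot T hT i).le) hHlogA) b (by omega) hb M L z n5
        hz1 hz2
      have hVl' := hVlow (tT k T)
      obtain ⟨V, hV⟩ : ∃ V, V = Vp F W b z (tT k T) := ⟨_, rfl⟩
      rw [← hV] at u1 u2 hVl'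
      obtain ⟨tt, htt⟩ : ∃ tt : Fin K → ℕ, tt = fun i => tT k T (Fin.cast hK i) := ⟨_, rfl⟩
      have hb1 : ((BadS F W b z (W * H) M L (tT k T)).card : ℝ) ≤
          2 * (L * (V * v)) * (A₁ * ((W * H : ℕ) : ℝ)) +
          ((W * H : ℕ) : ℝ) * ((2 : ℝ) ^ 2 ^ J) ^ (C * (C * (g * K + 2 * g + 1))) := by
        subst hK
        have h1 := hbad2 J z M L b (W * H) (tT k T) hzJ (Nat.mul_pos hW0 hHpos)
          (fun i => (Nat.mul_lt_mul_left hW0).2 (hslot T hT i))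
        rw [hV, hv]
        exact h1
      have hmain1 := arith1 L V v A₁ ((W * H : ℕ) : ℝ) η c (by linarith) u2.le hv0 hA₁ hWH hηA
      have hE : ((W * H : ℕ) : ℝ) * ((2 : ℝ) ^ 2 ^ J) ^ (C * (C * (g * K + 2 * g + 1))) ≤
          c / 4 * (L * V) := by
        apply arith2 (L : ℝ) V N W ((W * H : ℕ) : ℝ) c (cV * c₁ ^ K)
          (((2 : ℝ) ^ 2 ^ J) ^ (C * (C * (g * K + 2 * g + 1)))) (Real.log N ^ (g * K))
          (η / c₁ * Real.log N ^ g) hW0r hN0 hc (by positivity) (by positivity) (by positivity) hLN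
          (hWH.trans hηv) (hvK.trans hVl')
          (err_bd N J (C * (C * (g * K + 2 * g + 1))) _ ε₁ _ hN1r hε hX7 hεX' rfl hJ2)
          (by positivity)
        refine le_trans (le_of_eq ?_) hN2
        rw [pow_add]
        ring
      have hbadc : ((BadS F W b z (W * H) M L (tT k T)).card : ℝ) ≤ c / 2 * (L * V) := by
        linarith
      have hsd : ((R498.MP.gp F N ε₁ W b (tT k T) m M L).card : ℝ) -
          ((BadS F W b z (W * H) M L (tT k T)).card : ℝ) ≤ ((G T).card : ℝ) := by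
        rw [hG]
        have := Finset.le_card_sdiff (BadS F W b z (W * H) M L (tT k T))
          (R498.MP.gp F N ε₁ W b (tT k T) m M L)
        have h14 : (R498.MP.gp F N ε₁ W b (tT k T) m M L).card ≤
          (R498.MP.gp F N ε₁ W b (tT k T) m M L \ BadS F W b z (W * H) M L (tT k T)).card +
          (BadS F W b z (W * H) M L (tT k T)).card := by omega
        have h15 : ((R498.MP.gp F N ε₁ W b (tT k T) m M L).card : ℝ) ≤
          ((R498.MP.gp F N ε₁ W b (tT k T) m M L \ BadS F W b z (W * H) M L (tT k T)).card : ℝ) +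
          ((BadS F W b z (W * H) M L (tT k T)).card : ℝ) := by exact_mod_cast h14
        linarith
      calc c / 2 * cV * (L * v ^ K) = c / 2 * (L * (cV * v ^ K)) := by ring
        _ ≤ c / 2 * (L * V) := by gcongr
        _ ≤ _ := by linarith
    refine ⟨H, TT.biUnion G, hWH.trans (by gcongr), hHpos, ?_, ?_⟩
    · rw [card_biUnion (fun T hT T' hT' hne => hdisj (mem_coe.2 hT) (mem_coe.2 hT') hne)]
      push_cast
      have h1 : (TT.card : ℝ) * (c / 2 * cV * (L * v ^ K)) ≤ ∑ T ∈ TT, ((G T).card : ℝ) := by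
        rw [← nsmul_eq_mul]
        exact card_nsmul_le_sum _ _ _ hsize
      refine le_trans ?_ h1
      have h2 : (η / v / (4 * W)) ^ K / K.factorial ≤ (TT.card : ℝ) := by
        rw [hTT, card_powersetCard, card_range, ← hK]
        refine le_trans ?_ (choose_low H K hH2K)
        apply div_le_div_of_nonneg_right _ (by positivity)
        apply pow_le_pow_left₀ (by positivity)
        have e : η / v / (4 * W) = η / v / (2 * W) / 2 := by
          rw [div_div (η / v) (2 * (W : ℝ)) 2]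
          congr 1
          ring
        rw [e]
        linarith
      calc cF * N = (η / (4 * W)) ^ K / K.factorial * (c / 2 * cV * (N / (8 * W))) := by
            rw [hcF]
            ring
        _ ≤ (η / (4 * W)) ^ K / K.factorial * (c / 2 * cV * L) := by gcongr
        _ = (η / v / (4 * W)) ^ K / K.factorial * (c / 2 * cV * (L * v ^ K)) := by
            have e : η / v / (4 * W) = η / (4 * W) / v := by
              rw [div_div, div_div]
              congr 1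
              ring
            rw [e, div_pow (η / (4 * (W : ℝ))) v]
            field_simp
        _ ≤ _ := by gcongr
    · intro x hx
      rw [mem_biUnion] at hx
      obtain ⟨T, hT, hx⟩ := hx
      obtain ⟨h1, h2, h3, h4⟩ := hgpmem T hT x hx
      rw [mem_Ioc] at h1
      refine ⟨?_, ?_, T, (hmemT T hT).1, h3, h2, h4⟩
      · have h5 : N < W * (M + 1) := by
          rw [hM]
          exact Nat.lt_mul_div_succ N hW0
        have h6 : W * (M + 1) ≤ W * x := Nat.mul_le_mul_left _ (by omega)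
        omega
      · have h5 : W * M ≤ N := by rw [hM]; exact Nat.mul_div_le _ _
        have h6 : 2 * W * L ≤ N := by rw [hL]; exact Nat.mul_div_le _ _
        have h7 : W * x ≤ W * (M + L) := Nat.mul_le_mul_left _ h1.2
        have h8 : W * (M + L) = W * M + W * L := by ring
        have h9 : 2 * W * L = 2 * (W * L) := by ring
        omega

end Pool.Agent.V8H2.MG
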