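import Pool.Agent.V8H2.MG.Run
import Pool.Agent.V8H2.MG.Poly

/-!
The data for the primes `p` with `p ^ 2 - 2` free of small prime factors.
-/

set_option autoImplicit false

namespace Pool.Agent.V8H2.MG

open Finset Filter Polynomial
open Pool.Agent.Y677.RSZ (rt Sys rhoT poly_all)

theorem sq_roots (k : ℤ) (p : ℕ) (hp : p.Prime) :
    ((range p).filter (fun r : ℕ => (p : ℤ) ∣ (r : ℤ) ^ 2 - k)).card ≤ 2 := by
  classical
  rcases ((range p).filter (fun r : ℕ => (p : ℤ) ∣ (r : ℤ) ^ 2 - k)).eq_empty_or_nonempty with h | ⟨s, hs⟩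
  · rw [h]
    simp
  rw [mem_filter, mem_range] at hs
  have hpp := Nat.prime_iff_prime_int.1 hp
  refine (card_le_card (t := {s, (p - s) % p}) ?_).trans card_le_two
  intro r hr
  rw [mem_filter, mem_range] at hr
  rw [mem_insert, mem_singleton]
  have h1 : (p : ℤ) ∣ ((r : ℤ) - s) * (r + s) := by
    have e : ((r : ℤ) - s) * (r + s) = ((r : ℤ) ^ 2 - k) - ((s : ℤ) ^ 2 - k) := by ring
    rw [e]
    exact dvd_sub hr.2 hs.2
  rcases hpp.dvd_mul.1 h1 with h2 | h2
  · left
    have h3 : |(r : ℤ) - s| < p := by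
      rw [abs_lt]
      constructor <;> omega
    have := Int.eq_zero_of_abs_lt_dvd h2 h3
    omega
  · right
    have h3 : p ∣ r + s := by exact_mod_cast h2
    obtain ⟨c, hc⟩ := h3
    have hc2 : c < 2 := by
      by_contra hcon
      have : p * 2 ≤ p * c := Nat.mul_le_mul_left _ (by omega)
      omega
    have hp0 := hp.pos
    interval_cases c
    · have h4 : r = 0 ∧ s = 0 := by omega
      rw [h4.1, h4.2]
      simp
    · have h4 : r = p - s := by omega
      rw [← h4, Nat.mod_eq_of_lt hr.1]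

theorem Av_sq (k : ℤ) (hk : ∀ h : ℤ, h ≠ 0 → h ^ 2 - k ≠ 0) : Av (fun h => h ^ 2 - k) := by
  apply Av_gen (fun h => h ^ 2 - k) 2 (1 + k.natAbs) 2 (by omega)
  · intro p _ x
    refine ⟨2 * x + p, ?_⟩
    ring
  · intro p hp _
    exact sq_roots k p hp
  · intro x
    have h1 : |x ^ 2 - k| ≤ x ^ 2 + |k| := by
      refine (abs_sub _ _).trans ?_
      rw [abs_of_nonneg (sq_nonneg x)]
    have h2 : x ^ 2 = |x| ^ 2 := (sq_abs x).symm
    have h3 := abs_nonneg x
    have h4 := abs_nonneg k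
    push_cast
    obtain ⟨t, ht⟩ : ∃ t : ℤ, t = |x ^ 2 - k| := ⟨_, rfl⟩
    rw [← ht] at h1 ⊢
    rw [h2] at h1
    nlinarith [mul_nonneg h3 h4, mul_nonneg h4 (mul_nonneg h3 h3)]
  · exact hk

/-- the second factor -/
def GQ (n : ℤ) : ℤ := n ^ 2 - 2

/-- the collision function -/
def DQ (h : ℤ) : ℤ := h * ((h ^ 2 - 2) * (h ^ 2 - 8))

theorem sq_ne (k h : ℤ) (hk : k = 2 ∨ k = 8) : h ^ 2 - k ≠ 0 := by
  intro h0
  have h1 : |h| < 3 := by
    by_contra hcon
    have h2 : 3 ≤ |h| := by omega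
    have h3 : |h| ^ 2 = h ^ 2 := sq_abs h
    rcases hk with rfl | rfl <;> nlinarith
  rw [abs_lt] at h1
  have : h = -2 ∨ h = -1 ∨ h = 0 ∨ h = 1 ∨ h = 2 := by omega
  rcases hk with rfl | rfl <;> rcases this with rfl | rfl | rfl | rfl | rfl <;> norm_num at h0

theorem datQ : ∃ g : ℕ, 3 ≤ g ∧ Dat g (fun n => n * GQ n) DQ := by
  classical
  obtain ⟨P, hP⟩ : ∃ P : ℤ[X], P = X * (X ^ 2 - C 2) := ⟨_, rfl⟩
  have hev : ∀ n : ℤ, P.eval n = n * GQ n := by
    intro n
    rw [hP]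
    simp [GQ]
  have hu : IsUnit (P.eval 1) := by
    rw [hev]
    have : (1 : ℤ) * GQ 1 = -1 := by
      unfold GQ
      norm_num
    rw [this]
    exact isUnit_one.neg
  obtain ⟨g₀, hg₀⟩ := poly_all P
    (by
      intro h
      rw [h, eval_zero] at hu
      exact not_isUnit_zero hu)
    (fun p hp => ⟨1, fun h => (Nat.prime_iff_prime_int.1 hp).not_isUnit (isUnit_of_dvd_unit h hu)⟩)
  have hfun : (fun n : ℤ => P.eval n) = fun n => n * GQ n := funext hev
  rw [hfun] at hg₀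
  refine ⟨g₀ + 3, by omega, ?_, ?_, ?_, ?_, ?_⟩
  · exact Pool.Agent.Y677.RSZ.Sys.mono hg₀ (by omega)
  · intro p _ n hn
    exact hn.mul_right _
  · intro p hp x h h1 h2
    have hpp := Nat.prime_iff_prime_int.1 hp
    unfold DQ
    unfold GQ at h1 h2
    rcases hpp.dvd_mul.1 h1 with h3 | h3 <;> rcases hpp.dvd_mul.1 h2 with h4 | h4
    · have : (p : ℤ) ∣ h := by
        have e : h = (x + h) - x := by ring
        rw [e]
        exact dvd_sub h4 h3
      exact this.mul_right _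
    · have : (p : ℤ) ∣ h ^ 2 - 2 := by
        have e : h ^ 2 - 2 = ((x + h) ^ 2 - 2) - x * (x + 2 * h) := by ring
        rw [e]
        exact dvd_sub h4 (h3.mul_right _)
      exact (this.mul_right _).mul_left _
    · have : (p : ℤ) ∣ h ^ 2 - 2 := by
        have e : h ^ 2 - 2 = (x ^ 2 - 2) + (x + h) * (h - x) := by ring
        rw [e]
        exact dvd_add h3 (h4.mul_right _)
      exact (this.mul_right _).mul_left _
    · have h5 : (p : ℤ) ∣ h * (2 * x + h) := by
        have e : h * (2 * x + h) = ((x + h) ^ 2 - 2) - (x ^ 2 - 2) := by ring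
        rw [e]
        exact dvd_sub h4 h3
      rcases hpp.dvd_mul.1 h5 with h6 | h6
      · exact h6.mul_right _
      · have : (p : ℤ) ∣ h ^ 2 - 8 := by
          have e : h ^ 2 - 8 = 4 * (x ^ 2 - 2) + (2 * x + h) * (h - 2 * x) := by ring
          rw [e]
          exact dvd_add (h3.mul_left _) (h6.mul_right _)
        exact (this.mul_left _).mul_left _
  · intro h hh
    unfold DQ
    exact mul_ne_zero hh (mul_ne_zero (sq_ne 2 h (Or.inl rfl)) (sq_ne 8 h (Or.inr rfl)))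
  · have a1 : Av (fun h => h) := by
      have := Av_lin 1 0 (by norm_num) (by intro h hh; simpa using hh)
      simpa using this
    have a2 : Av (fun h => h ^ 2 - 2) := Av_sq 2 (fun h _ => sq_ne 2 h (Or.inl rfl))
    have a3 : Av (fun h => h ^ 2 - 8) := Av_sq 8 (fun h _ => sq_ne 8 h (Or.inr rfl))
    have a4 : Av (fun h => (h ^ 2 - 2) * (h ^ 2 - 8)) :=
      Av_mul _ _ (fun h _ => sq_ne 2 h (Or.inl rfl)) (fun h _ => sq_ne 8 h (Or.inr rfl)) a2 a3
    have a5 : Av (fun h => h * ((h ^ 2 - 2) * (h ^ 2 - 8))) :=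
      Av_mul _ _ (fun h hh => hh) (fun h _ => mul_ne_zero (sq_ne 2 h (Or.inl rfl)) (sq_ne 8 h (Or.inr rfl))) a1 a4
    exact a5

theorem rtQ_le (p : ℕ) (hp : p.Prime) : rt (fun n => n * GQ n) p ≤ 3 := by
  classical
  have hpp := Nat.prime_iff_prime_int.1 hp
  unfold rt
  have hsub : (range p).filter (fun r : ℕ => (p : ℤ) ∣ (r : ℤ) * GQ (r : ℤ)) ⊆
      {0} ∪ (range p).filter (fun r : ℕ => (p : ℤ) ∣ (r : ℤ) ^ 2 - 2) := by
    intro r hr
    rw [mem_filter, mem_range] at hr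
    rw [mem_union, mem_singleton, mem_filter, mem_range]
    rcases hpp.dvd_mul.1 hr.2 with h | h
    · left
      have h1 : p ∣ r := by exact_mod_cast h
      exact Nat.eq_zero_of_dvd_of_lt h1 hr.1
    · right
      exact ⟨hr.1, h⟩
  refine (card_le_card hsub).trans ((card_union_le _ _).trans ?_)
  have := sq_roots 2 p hp
  rw [card_singleton]
  omega

theorem rtQ_ge (p : ℕ) (hp : p.Prime) : 1 ≤ rt (fun n => n * GQ n) p := by
  classical
  unfold rt
  rw [Nat.one_le_iff_ne_zero, ← Nat.pos_iff_ne_zero, card_pos]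
  exact ⟨0, by rw [mem_filter, mem_range]; exact ⟨hp.pos, by simp⟩⟩

end Pool.Agent.V8H2.MG
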