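import Pool.Agent.V8H2.MG.Pos

/-!
A positive proportion of runs: primes `p` with `G p` free of small prime factors; general form.
-/

set_option autoImplicit false

namespace Pool.Agent.V8H2.MG

open Finset Filter
open Pool.Agent.Y677.RSZ (rt Sys rhoT)

open Classical in
/-- the primes `p` of `(N, 2 N]` such that all prime factors of `G p` are at least `N ^ δ` -/
noncomputable def SP (G : ℤ → ℤ) (δ : ℝ) (N : ℕ) : Finset ℕ :=
  (Ioc N (2 * N)).filter (fun n => n.Prime ∧ ∀ p : ℕ, p.Prime → (p : ℤ) ∣ G (n : ℤ) → (N : ℝ) ^ δ ≤ p)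

theorem mem_SP (G : ℤ → ℤ) (δ : ℝ) (N n : ℕ) : n ∈ SP G δ N ↔ N < n ∧ n ≤ 2 * N ∧ n.Prime ∧
    ∀ p : ℕ, p.Prime → (p : ℤ) ∣ G (n : ℤ) → (N : ℝ) ^ δ ≤ p := by
  classical
  unfold SP
  rw [mem_filter, mem_Ioc]
  tauto

theorem SP_rough (G : ℤ → ℤ) (δ : ℝ) (hδ : δ ≤ 1) (N n : ℕ) (hN : 1 ≤ N) (h : n ∈ SP G δ N) (p : ℕ)
    (hp : p.Prime) (hpN : (p : ℝ) < (N : ℝ) ^ δ) : ¬ (p : ℤ) ∣ (n : ℤ) * G n := by
  rw [mem_SP] at h
  obtain ⟨h1, h2, h3, h4⟩ := h
  intro hd
  rcases (Nat.prime_iff_prime_int.1 hp).dvd_mul.1 hd with hd | hd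
  · have h5 : p ∣ n := by exact_mod_cast hd
    have h6 := (Nat.prime_dvd_prime_iff_eq hp h3).1 h5
    have h7 : (N : ℝ) ^ δ ≤ N := by
      have : (1 : ℝ) ≤ N := by exact_mod_cast hN
      calc (N : ℝ) ^ δ ≤ (N : ℝ) ^ (1 : ℝ) := Real.rpow_le_rpow_of_exponent_le this hδ
        _ = N := Real.rpow_one _
    have h8 : (p : ℝ) < N := by linarith
    have h9 : p < N := by exact_mod_cast h8
    omega
  · have := h4 p hp hd
    linarith

open Classical in
/-- the elements `p` of `S` such that `p` and the next `m` elements of `S` are all `≡ a` modulo `q` and at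
most `p + Δ` -/
noncomputable def Run (S : Finset ℕ) (m q a : ℕ) (Δ : ℝ) : Finset ℕ :=
  S.filter (fun p => ∃ x : ℕ → ℕ, x 0 = p ∧
    (∀ j ≤ m, x j ∈ S ∧ x j ≡ a [MOD q] ∧ (x j : ℝ) ≤ p + Δ) ∧
    ∀ j < m, x j < x (j + 1) ∧ ∀ y ∈ S, ¬ (x j < y ∧ y < x (j + 1)))

theorem runs (g : ℕ) (hg1 : 1 ≤ g) (G D : ℤ → ℤ) (hD : Dat g (fun n => n * G n) D) (l u P₀ : ℕ)
    (hl1 : 1 ≤ l) (hlg : l ≤ 2 * g) (hug : u ≤ g)
    (hl : ∀ p : ℕ, p.Prime → P₀ < p → l ≤ rt (fun n => n * G n) p)
    (hu : ∀ p : ℕ, p.Prime → P₀ < p → rt (fun n => n * G n) p ≤ u) (m q a : ℕ) (hq : 0 < q) (ha : ∀ p : ℕ, p.Prime → p ∣ q → ¬ (p : ℤ) ∣ (a : ℤ) * G a) :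
    ∃ (W : ℕ) (δ c₁ c₂ : ℝ), 0 < W ∧ 0 < δ ∧ δ ≤ 1 / 24 ∧ 0 < c₁ ∧ 0 < c₂ ∧
      (∀ᶠ N : ℕ in atTop, c₁ / Real.log N ^ u ≤ vv (fun n => n * G n) W (zf δ N) ∧
        vv (fun n => n * G n) W (zf δ N) ≤ c₂ / Real.log N ^ l) ∧
      (∀ᶠ N : ℕ in atTop, ((SP G δ N).card : ℝ) ≤ 3 * (N * vv (fun n => n * G n) W (zf δ N))) ∧
      ∀ η : ℝ, 0 < η → ∃ c : ℝ, 0 < c ∧ ∀ᶠ N : ℕ in atTop, ∀ Δ : ℝ,
        η / vv (fun n => n * G n) W (zf δ N) ≤ Δ →
        c * (N * vv (fun n => n * G n) W (zf δ N)) ≤ ((Run (SP G δ N) m q a Δ).card : ℝ) := by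
  classical
  obtain ⟨W, b, δ, c₁, c₂, hW0, hqW, hbW, hbq, hδ, hδ24, hc₁, hc₂, hdens, hup, hwin⟩ :=
    windows g hg1 (fun n => n * G n) D hD l u P₀ hl1 hlg hug hl hu m q a hq ha
  refine ⟨W, δ, c₁, c₂, hW0, hδ, hδ24, hc₁, hc₂, hdens, ?_, ?_⟩
  · filter_upwards [hup, eventually_ge_atTop 1] with N hN hN1
    apply hN (SP G δ N)
    · intro n hn
      rw [mem_SP] at hn
      rw [mem_Ioc]
      exact ⟨hn.1, hn.2.1⟩
    · intro n hn p hp hpN
      exact SP_rough G δ (by linarith) N n hN1 hn p hp hpN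
  intro η hη
  obtain ⟨c, hc, hev⟩ := hwin η hη
  have hW0r : (0 : ℝ) < W := by exact_mod_cast hW0
  refine ⟨c * W / η, by positivity, ?_⟩
  filter_upwards [hev, eventually_ge_atTop 4] with N hN hN4
  intro Δ hΔ
  obtain ⟨H, U, hWH, hH0, hU, hx⟩ := hN
  have hNr : (4 : ℝ) ≤ N := by exact_mod_cast hN4
  have hN0 : (0 : ℝ) < N := by linarith
  choose! T hTH hTm hTr hTw using fun x hxU => (hx x hxU).2.2
  -- the primes of the slots
  obtain ⟨P, hP⟩ : ∃ P : ℕ → Finset ℕ,
    P = fun x => (T x).filter (fun j => (W * (x + j) + b).Prime) := ⟨_, rfl⟩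
  have hPm : ∀ x ∈ U, m < (P x).card := by
    intro x hxU
    rw [hP]
    exact hTm x hxU
  obtain ⟨e, he⟩ : ∃ e : ℕ → ℕ → ℕ, e = fun x j =>
    if h : j < (P x).card then (P x).orderEmbOfFin rfl ⟨j, h⟩ else 0 := ⟨_, rfl⟩
  have hee : ∀ x j (h : j < (P x).card), e x j = (P x).orderEmbOfFin rfl ⟨j, h⟩ := by
    intro x j h
    rw [he]
    exact dif_pos h
  have heP : ∀ x j, j < (P x).card → e x j ∈ P x := by
    intro x j h
    rw [hee x j h]
    exact Finset.orderEmbOfFin_mem (P x) rfl _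
  have hPT : ∀ x j, j ∈ P x → j ∈ T x ∧ (W * (x + j) + b).Prime := by
    intro x j hj
    rw [hP, mem_filter] at hj
    exact hj
  -- the elements
  have hslotS : ∀ x ∈ U, ∀ j ∈ P x, W * (x + j) + b ∈ SP G δ N ∧ j < H := by
    intro x hxU j hj
    obtain ⟨h1, h2⟩ := hPT x j hj
    have hjH : j < H := mem_range.1 (hTH x hxU h1)
    refine ⟨?_, hjH⟩
    obtain ⟨g1, g2, -⟩ := hx x hxU
    have g3 : W * j < W * H := Nat.mul_lt_mul_of_pos_left hjH hW0
    have g4 : W * (x + j) = W * x + W * j := by ring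
    rw [mem_SP]
    refine ⟨by omega, by omega, h2, ?_⟩
    intro l hl hld
    by_contra hcon
    push Not at hcon
    apply hTr x hxU j h1 l hl hcon
    exact Dvd.dvd.mul_left hld _
  have hcl : ∀ x j : ℕ, W * (x + j) + b ≡ a [MOD q] := by
    intro x j
    have h1 : W * (x + j) ≡ 0 [MOD q] := (Nat.modEq_zero_iff_dvd).2 (hqW.mul_right _)
    simpa using h1.add hbq
  -- the map to the first element
  obtain ⟨s, hs⟩ : ∃ s : ℕ → ℕ, s = fun x => W * (x + e x 0) + b := ⟨_, rfl⟩
  have hsb : ∀ x ∈ U, W * x + b ≤ s x ∧ s x < W * x + b + W * H := by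
    intro x hxU
    have h1 := heP x 0 (by have := hPm x hxU; omega)
    obtain ⟨-, h2⟩ := hslotS x hxU _ h1
    have g3 : W * e x 0 < W * H := Nat.mul_lt_mul_of_pos_left h2 hW0
    have g4 : W * (x + e x 0) = W * x + W * e x 0 := by ring
    rw [hs]
    simp only
    constructor <;> omega
  have hfib : ∀ y ∈ U.image s, (U.filter (fun x => s x = y)).card ≤ H := by
    intro y _
    have hsub : U.filter (fun x => s x = y) ⊆ Ioc ((y - b) / W - H) ((y - b) / W) := by
      intro x hx'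
      rw [mem_filter] at hx'
      obtain ⟨h1, h2⟩ := hx'
      obtain ⟨h3, h4⟩ := hsb x h1
      rw [h2] at h3 h4
      have h5 : x ≤ (y - b) / W := by
        rw [Nat.le_div_iff_mul_le hW0]
        have : x * W = W * x := mul_comm _ _
        omega
      have h6 : (y - b) / W < x + H := by
        rw [Nat.div_lt_iff_lt_mul hW0]
        have : (x + H) * W = W * x + W * H := by ring
        omega
      have h7 : 0 < x := by
        rcases Nat.eq_zero_or_pos x with h | h
        · exfalso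
          obtain ⟨g1, -, -⟩ := hx x h1
          rw [h, mul_zero] at g1
          omega
        · exact h
      rw [mem_Ioc]
      omega
    refine (card_le_card hsub).trans ?_
    rw [Nat.card_Ioc]
    omega
  have hcardU : U.card ≤ H * (U.image s).card := Finset.card_le_mul_card_image U H hfib
  have himage : U.image s ⊆ Run (SP G δ N) m q a Δ := by
    intro y hy
    rw [mem_image] at hy
    obtain ⟨x, hxU, rfl⟩ := hy
    have hPc := hPm x hxU
    unfold Run
    rw [mem_filter]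
    have h0 := heP x 0 (by omega)
    refine ⟨?_, fun j => W * (x + e x j) + b, ?_, ?_, ?_⟩
    · rw [hs]
      exact (hslotS x hxU _ h0).1
    · rw [hs]
    · intro j hj
      have h1 := heP x j (by omega)
      obtain ⟨h2, h3⟩ := hslotS x hxU _ h1
      refine ⟨h2, hcl _ _, ?_⟩
      obtain ⟨h4, h5⟩ := hsb x hxU
      have g3 : W * e x j < W * H := Nat.mul_lt_mul_of_pos_left h3 hW0
      have g4 : W * (x + e x j) = W * x + W * e x j := by ring
      have h6 : W * (x + e x j) + b ≤ s x + W * H := by omega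
      have h7 : ((W * (x + e x j) + b : ℕ) : ℝ) ≤ (s x : ℝ) + ((W * H : ℕ) : ℝ) := by
        exact_mod_cast h6
      have h8 := hWH.trans hΔ
      linarith
    · intro j hj
      have hj1 : j < (P x).card := by omega
      have hj2 : j + 1 < (P x).card := by omega
      have h1 := hee x j hj1
      have h2 := hee x (j + 1) hj2
      have h3 : e x j < e x (j + 1) := by
        rw [h1, h2]
        apply ((P x).orderEmbOfFin rfl).strictMono
        rw [Fin.mk_lt_mk]
        omega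
      refine ⟨?_, ?_⟩
      · have : W * (x + e x j) < W * (x + e x (j + 1)) :=
          Nat.mul_lt_mul_of_pos_left (by omega) hW0
        simp only
        omega
      · rintro y hyS ⟨hy1, hy2⟩
        simp only at hy1 hy2
        have g4 : ∀ i, W * (x + i) = W * x + W * i := fun i => by ring
        rw [g4] at hy1 hy2
        have hlast := (hslotS x hxU _ (heP x (j + 1) hj2)).2
        have g5 : W * e x (j + 1) < W * H := Nat.mul_lt_mul_of_pos_left hlast hW0
        obtain ⟨i', hi'⟩ : ∃ i', y = W * x + (b + i') := ⟨y - (W * x + b), by omega⟩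
        obtain ⟨i, hi, hij⟩ := hTw x hxU i' (by omega) (fun p hp hpN _ => by
          rw [← hi']
          exact SP_rough G δ (by linarith) N y (by omega) hyS p hp hpN)
        have hyp := (mem_SP G δ N y).1 hyS
        have hyslot : y = W * (x + i) + b := by rw [g4]; omega
        have hiP : i ∈ P x := by
          rw [hP, mem_filter]
          refine ⟨hi, ?_⟩
          rw [← hyslot]
          exact hyp.2.2.1
        have hi3 : i ∈ Set.range ((P x).orderEmbOfFin rfl) := by
          rw [Finset.range_orderEmbOfFin]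
          exact hiP
        obtain ⟨l, hl⟩ := hi3
        have h5 : e x j < i := by
          by_contra hcon
          have : W * i ≤ W * e x j := Nat.mul_le_mul_left _ (by omega)
          omega
        have h6 : i < e x (j + 1) := by
          by_contra hcon
          have : W * e x (j + 1) ≤ W * i := Nat.mul_le_mul_left _ (by omega)
          omega
        have h7 : (⟨j, hj1⟩ : Fin (P x).card) < l := by
          rw [← ((P x).orderEmbOfFin rfl).lt_iff_lt, hl, ← h1]
          exact h5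
        have h8 : l < (⟨j + 1, hj2⟩ : Fin (P x).card) := by
          rw [← ((P x).orderEmbOfFin rfl).lt_iff_lt, hl, ← h2]
          exact h6
        rw [Fin.lt_def] at h7 h8
        simp only at h7 h8
        omega
  have hcard2 : ((U.image s).card : ℝ) ≤ ((Run (SP G δ N) m q a Δ).card : ℝ) := by
    exact_mod_cast card_le_card himage
  refine le_trans ?_ hcard2
  obtain ⟨v, hv⟩ : ∃ v : ℝ, v = vv (fun n => n * G n) W (zf δ N) := ⟨_, rfl⟩
  rw [← hv] at hWH ⊢
  have hv0 : 0 < v := by rw [hv]; exact vv_pos hD W _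
  have h1 : (U.card : ℝ) ≤ H * ((U.image s).card : ℝ) := by exact_mod_cast hcardU
  have h2 : c * N ≤ H * ((U.image s).card : ℝ) := hU.trans h1
  have h3 : (H : ℝ) * (W * v) ≤ η := by
    rw [le_div_iff₀ hv0] at hWH
    push_cast at hWH
    linarith
  have h4 : (0 : ℝ) ≤ ((U.image s).card : ℝ) := Nat.cast_nonneg _
  calc c * W / η * (N * v) = (c * N) * (W * v) / η := by ring
    _ ≤ (H * ((U.image s).card : ℝ)) * (W * v) / η := by gcongr
    _ = ((H : ℝ) * (W * v)) * ((U.image s).card : ℝ) / η := by ring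
    _ ≤ η * ((U.image s).card : ℝ) / η := by gcongr
    _ = _ := by field_simp

end Pool.Agent.V8H2.MG
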