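import Pool.Agent.V8H2.MQ.Gen
import Pool.Agent.Y833.RSZ.LOC
import Pool.Agent.V8H2.MQ.Dens

/-!
The sieve upper bound for a tuple with one more element, on average over the additional element; general form.
-/

set_option autoImplicit false

namespace Pool.Agent.V8H2.MG

open Finset Filter
open Pool.Agent.TH423.SH (PS)
open Pool.Agent.Y677.RSZ (rt Sys rhoT)
open Pool.Agent.Y852.RSZ (OmC card_one_le per_dvd)
open Pool.Agent.V8H2.QW (GG GG_pos GG_le fac_pos)
open Pool.Agent.V8H2.MQ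

/-- the majorant -/
noncomputable def Gm (C : ℝ) (e : ℕ) : ℝ := ∏ p ∈ e.primeFactors, (1 + C / p)

theorem Gm_one (C : ℝ) (hC : 0 ≤ C) (e : ℕ) : 1 ≤ Gm C e := by
  unfold Gm
  apply one_le_prod
  intro p _
  have : 0 ≤ C / (p : ℝ) := by positivity
  linarith

theorem pow_step (c : ℝ) (hc : 0 < c) (n : ℕ) (x : ℝ) (h0 : 0 ≤ x) (h4 : x ≤ c) :
    (1 + x) ^ n ≤ 1 + x * (((1 + c) ^ n - 1) / c) := by
  induction n with
  | zero => simp
  | succ n ih =>
    have h1 : (1 : ℝ) ≤ (1 + c) ^ n := one_le_pow₀ (by linarith)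
    have h5 : (0 : ℝ) ≤ ((1 + c) ^ n - 1) / c := div_nonneg (by linarith) hc.le
    calc (1 + x) ^ (n + 1) = (1 + x) ^ n * (1 + x) := pow_succ _ _
      _ ≤ (1 + x * (((1 + c) ^ n - 1) / c)) * (1 + x) := by gcongr
      _ = 1 + x * (1 + ((1 + c) ^ n - 1) / c + x * (((1 + c) ^ n - 1) / c)) := by ring
      _ ≤ 1 + x * (1 + ((1 + c) ^ n - 1) / c + c * (((1 + c) ^ n - 1) / c)) := by gcongr
      _ = 1 + x * (((1 + c) ^ (n + 1) - 1) / c) := by
          field_simp
          ring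

theorem Gm_pow (c : ℝ) (hc : 0 < c) (n e : ℕ) : Gm c e ^ n ≤ Gm ((1 + c) ^ n) e := by
  unfold Gm
  rw [← prod_pow]
  apply Finset.prod_le_prod
  · intro p _
    positivity
  · intro p hp
    have hp1 : (1 : ℝ) ≤ p := by exact_mod_cast (Nat.prime_of_mem_primeFactors hp).one_le
    have h1 : c / p ≤ c := div_le_self hc.le hp1
    refine (pow_step c hc n (c / p) (by positivity) h1).trans ?_
    have h2 : c / p * (((1 + c) ^ n - 1) / c) = ((1 + c) ^ n - 1) / p := by
      field_simp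
    rw [h2]
    have h3 : ((1 + c) ^ n - 1) / p ≤ (1 + c) ^ n / p := by
      gcongr
      linarith
    linarith

theorem prod_le_sum {ι : Type} [Fintype ι] [DecidableEq ι] (hι : Nonempty ι) (a : ι → ℝ)
    (h : ∀ i, 1 ≤ a i) : ∏ i, a i ≤ ∑ i, a i ^ Fintype.card ι := by
  obtain ⟨j, -, hj⟩ := Finset.exists_max_image (univ : Finset ι) a univ_nonempty
  calc ∏ i, a i ≤ ∏ _i : ι, a j := by
        apply Finset.prod_le_prod
        · intro i _
          linarith [h i]
        · intro i _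
          exact hj i (mem_univ i)
    _ = a j ^ Fintype.card ι := by rw [prod_const, card_univ]
    _ ≤ _ := single_le_sum (f := fun i => a i ^ Fintype.card ι)
        (fun i _ => pow_nonneg (by linarith [h i]) _) (mem_univ j)

/-- The data: `F` with the collision function `D`. -/
structure Dat (g : ℕ) (F D : ℤ → ℤ) : Prop where
  sys : Sys g F
  fid : ∀ p : ℕ, p.Prime → ∀ n : ℤ, (p : ℤ) ∣ n → (p : ℤ) ∣ F n
  col : ∀ p : ℕ, p.Prime → ∀ x h : ℤ, (p : ℤ) ∣ F x → (p : ℤ) ∣ F (x + h) → (p : ℤ) ∣ D h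
  nz : ∀ h : ℤ, h ≠ 0 → D h ≠ 0
  av : ∀ C : ℝ, 0 ≤ C → ∃ A : ℝ, 0 < A ∧ ∀ (X : ℕ) (a : ℤ), 1 ≤ X → |a| ≤ X →
    ∑ j ∈ (range X).filter (fun j : ℕ => a - (j : ℤ) ≠ 0), Gm C (D (a - (j : ℤ))).natAbs ≤ A * X

/-- the classes of one more element -/
def R1 (F : ℤ → ℤ) (W β p : ℕ) : Finset ℕ := (range p).filter (fun r : ℕ => (p : ℤ) ∣ F ((W * r + β : ℕ) : ℤ))

theorem R1_le {F : ℤ → ℤ} {p : ℕ} (hp : p.Prime) (hper : ∀ n : ℤ, (p : ℤ) ∣ F (n + p) - F n) (W β : ℕ)
    (hW : ¬ p ∣ W) : (R1 F W β p).card ≤ rt F p := by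
  have h := card_one_le hp hper W β 0 hW
  refine le_trans (le_of_eq ?_) h
  unfold R1
  simp

theorem R1_ge {F : ℤ → ℤ} {p : ℕ} (hp : p.Prime) (hper : ∀ n : ℤ, (p : ℤ) ∣ F (n + p) - F n) (W β : ℕ)
    (hW : ¬ p ∣ W) : rt F p ≤ (R1 F W β p).card := by
  classical
  have hinj : Set.InjOn (fun r => (W * r + β) % p) (range p : Finset ℕ) := by
    intro r hr s hs hrs
    rw [mem_coe, mem_range] at hr hs
    have h1 : W * r + β ≡ W * s + β [MOD p] := hrs
    have h2 : W * r ≡ W * s [MOD p] := Nat.ModEq.add_right_cancel' β h1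
    have h3 : r ≡ s [MOD p] := Nat.ModEq.cancel_left_of_coprime (by
      rw [← Nat.coprime_iff_gcd_eq_one]
      exact (Nat.Prime.coprime_iff_not_dvd hp).2 hW) h2
    have h4 : r % p = s % p := h3
    rwa [Nat.mod_eq_of_lt hr, Nat.mod_eq_of_lt hs] at h4
  have hmaps : Set.MapsTo (fun r => (W * r + β) % p) (range p : Finset ℕ) (range p : Finset ℕ) := by
    intro r _
    rw [mem_coe, mem_range]
    exact Nat.mod_lt _ hp.pos
  have hsurj := Finset.surjOn_of_injOn_of_card_le _ hmaps hinj le_rfl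
  unfold rt
  refine (card_le_card (t := (R1 F W β p).image (fun r => (W * r + β) % p)) ?_).trans card_image_le
  intro s hs
  rw [mem_filter, mem_range] at hs
  obtain ⟨r, hr, hr2⟩ := hsurj (show s ∈ ((range p : Finset ℕ) : Set ℕ) by
    rw [mem_coe, mem_range]; exact hs.1)
  rw [mem_image]
  refine ⟨r, ?_, hr2⟩
  unfold R1
  rw [mem_filter]
  refine ⟨hr, ?_⟩
  refine (per_dvd hper ?_).2 hs.2
  simp only at hr2
  have h2 := Nat.div_add_mod (W * r + β) p
  rw [hr2] at h2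
  refine ⟨(((W * r + β) / p : ℕ) : ℤ), ?_⟩
  have h3 : ((W * r + β : ℕ) : ℤ) = (p : ℤ) * (((W * r + β) / p : ℕ) : ℤ) + (s : ℤ) := by
    exact_mod_cast h2.symm
  linarith

/-- the forbidden classes -/
def OmB (F : ℤ → ℤ) (W b : ℕ) {m : ℕ} (t : Fin m → ℕ) (β p : ℕ) : Finset ℕ := OmC F W b t p ∪ R1 F W β p

/-- the numbers with the exceptional primes -/
def ee (D : ℤ → ℤ) (W b : ℕ) {m : ℕ} (t : Fin m → ℕ) (β : ℕ) (i : Fin m) : ℕ :=
  (D (((W * t i + b : ℕ) : ℤ) - (β : ℤ))).natAbs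

theorem OmC_rho (F : ℤ → ℤ) (W b : ℕ) {m : ℕ} (t : Fin m → ℕ) (p : ℕ) :
    (OmC F W b t p).card = rhoT F W b t p := by
  unfold OmC rhoT
  rfl

section
variable {g : ℕ} {F D : ℤ → ℤ} (hD : Dat g F D)
include hD

theorem OmC_le' (W b : ℕ) {m : ℕ} (t : Fin m → ℕ) (p : ℕ) (hp : p.Prime) (hW : ¬ p ∣ W) :
    rhoT F W b t p ≤ m * rt F p :=
  Pool.Agent.Y833.RSZ.rhoT_le hp (hD.sys.per p hp) W b t hW

theorem OmC_le (W b : ℕ) {m : ℕ} (t : Fin m → ℕ) (p : ℕ) (hp : p.Prime) (hW : ¬ p ∣ W) :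
    rhoT F W b t p ≤ g * m := by
  have h1 := OmC_le' hD W b t p hp hW
  have h2 : m * rt F p ≤ m * g := Nat.mul_le_mul_left _ (hD.sys.root p hp).1
  rw [mul_comm g m]
  omega

theorem OmB_le (W b : ℕ) {m : ℕ} (t : Fin m → ℕ) (β p : ℕ) (hp : p.Prime) (hW : ¬ p ∣ W) :
    (OmB F W b t β p).card ≤ g * m + g := by
  unfold OmB
  refine (card_union_le _ _).trans ?_
  have h1 := OmC_le hD W b t p hp hW
  rw [← OmC_rho] at h1
  have h2 := (R1_le hp (hD.sys.per p hp) W β hW).trans (hD.sys.root p hp).1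
  omega

theorem OmB_ge (W b : ℕ) {m : ℕ} (t : Fin m → ℕ) (β p : ℕ) (hp : p.Prime)
    (hW : ¬ p ∣ W) (h : ∀ i, ¬ p ∣ ee D W b t β i) :
    rhoT F W b t p + rt F p ≤ (OmB F W b t β p).card := by
  classical
  unfold OmB
  rw [card_union_of_disjoint, OmC_rho]
  · have := R1_ge hp (hD.sys.per p hp) W β hW
    omega
  · rw [Finset.disjoint_left]
    intro r hr hr2
    unfold OmC at hr
    unfold R1 at hr2
    rw [mem_filter] at hr hr2
    obtain ⟨_, i, hi⟩ := hr
    have hj := hr2.2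
    apply h i
    unfold ee
    apply Int.natCast_dvd.1
    apply hD.col p hp ((W * r + β : ℕ) : ℤ) _ hj
    have e : ((W * r + β : ℕ) : ℤ) + (((W * t i + b : ℕ) : ℤ) - (β : ℤ)) =
        ((W * (r + t i) + b : ℕ) : ℤ) := by
      push_cast
      ring
    rw [e]
    exact hi

open Classical in
theorem fac_le (W b : ℕ) {m : ℕ} (t : Fin m → ℕ) (β p : ℕ) (hp : p.Prime)
    (hW : ¬ p ∣ W) (hm : g * m + 2 * g < p) :
    0 ≤ 1 - ((OmB F W b t β p).card : ℝ) / p ∧ 1 - ((OmB F W b t β p).card : ℝ) / p ≤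
      (1 - (rhoT F W b t p : ℝ) / p) * ((1 - (rt F p : ℝ) / (p : ℝ)) *
        ∏ i, (if p ∣ ee D W b t β i then 1 + (2 * g : ℕ) / (p : ℝ) else 1)) := by
  have hp0 : (0 : ℝ) < p := by exact_mod_cast hp.pos
  have h1 := OmB_le hD W b t β p hp hW
  have h1r : ((OmB F W b t β p).card : ℝ) ≤ p := by
    exact_mod_cast (by omega : (OmB F W b t β p).card ≤ p)
  have h2 := OmC_le hD W b t p hp hW
  have h2r : (rhoT F W b t p : ℝ) ≤ p := by exact_mod_cast (by omega : rhoT F W b t p ≤ p)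
  have hrt := (hD.sys.root p hp).1
  have hrtr : (rt F p : ℝ) ≤ g := by exact_mod_cast hrt
  have hpg : (2 * g : ℝ) ≤ p := by exact_mod_cast (by omega : 2 * g ≤ p)
  have h3 : 0 ≤ 1 - (rhoT F W b t p : ℝ) / p := by
    rw [sub_nonneg, div_le_one hp0]
    exact h2r
  have hg0 : (0 : ℝ) ≤ g := Nat.cast_nonneg g
  have h4 : 0 ≤ 1 - (rt F p : ℝ) / (p : ℝ) := by
    rw [sub_nonneg, div_le_one hp0]
    linarith
  have hone : ∀ i, (1 : ℝ) ≤ (if p ∣ ee D W b t β i then 1 + (2 * g : ℕ) / (p : ℝ) else 1) := by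
    intro i
    split_ifs
    · have : 0 ≤ ((2 * g : ℕ) : ℝ) / (p : ℝ) := by positivity
      linarith
    · exact le_rfl
  refine ⟨?_, ?_⟩
  · rw [sub_nonneg, div_le_one hp0]
    exact h1r
  · by_cases h : ∀ i, ¬ p ∣ ee D W b t β i
    · have h5 := OmB_ge hD W b t β p hp hW h
      have h5r : (rhoT F W b t p : ℝ) + rt F p ≤ (OmB F W b t β p).card := by exact_mod_cast h5
      have h6 : ∏ i, (if p ∣ ee D W b t β i then 1 + (2 * g : ℕ) / (p : ℝ) else 1) = 1 := by
        apply prod_eq_one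
        intro i _
        rw [if_neg (h i)]
      rw [h6, mul_one]
      have h7 : ((rhoT F W b t p : ℝ) + rt F p) / p ≤ ((OmB F W b t β p).card : ℝ) / p := by gcongr
      have h8 : (1 - (rhoT F W b t p : ℝ) / p) * (1 - (rt F p : ℝ) / (p : ℝ)) =
          1 - ((rhoT F W b t p : ℝ) + rt F p) / p + (rhoT F W b t p : ℝ) / p * (rt F p / p) := by
        ring
      rw [h8]
      have h9 : 0 ≤ (rhoT F W b t p : ℝ) / p * (rt F p / p) := by positivity
      linarith
    · push Not at h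
      obtain ⟨i, hi⟩ := h
      have h5 : 1 + (2 * g : ℕ) / (p : ℝ) ≤
          ∏ i, (if p ∣ ee D W b t β i then 1 + (2 * g : ℕ) / (p : ℝ) else 1) := by
        rw [← Finset.mul_prod_erase univ _ (mem_univ i), if_pos hi]
        have h4p : 0 ≤ ((2 * g : ℕ) : ℝ) / (p : ℝ) := by positivity
        apply le_mul_of_one_le_right (by linarith)
        exact Finset.one_le_prod (fun j _ => hone j)
      have h7 : (1 : ℝ) ≤ (1 - (rt F p : ℝ) / (p : ℝ)) *
          ∏ i, (if p ∣ ee D W b t β i then 1 + (2 * g : ℕ) / (p : ℝ) else 1) := by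
        refine le_trans ?_ (mul_le_mul_of_nonneg_left h5 h4)
        have h71 : 1 - (g : ℝ) / p ≤ 1 - (rt F p : ℝ) / (p : ℝ) := by
          have : (rt F p : ℝ) / (p : ℝ) ≤ g / p := by gcongr
          linarith
        have h72 : (1 - (g : ℝ) / p) * (1 + (2 * g : ℕ) / (p : ℝ)) =
            1 + g / (p : ℝ) ^ 2 * (p - 2 * g) := by
          push_cast
          field_simp
          ring
        have h73 : 0 ≤ g / (p : ℝ) ^ 2 * (p - 2 * g) := mul_nonneg (by positivity) (by linarith)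
        calc (1 : ℝ) ≤ (1 - (g : ℝ) / p) * (1 + (2 * g : ℕ) / (p : ℝ)) := by
              rw [h72]
              linarith
          _ ≤ _ := mul_le_mul_of_nonneg_right h71 (by positivity)
      have h9 : (rhoT F W b t p : ℝ) ≤ (OmB F W b t β p).card := by
        rw [← OmC_rho]
        exact_mod_cast card_le_card subset_union_left
      have h10 : (rhoT F W b t p : ℝ) / p ≤ ((OmB F W b t β p).card : ℝ) / p := by gcongr
      calc 1 - ((OmB F W b t β p).card : ℝ) / p ≤ (1 - (rhoT F W b t p : ℝ) / p) * 1 := by linarith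
        _ ≤ _ := mul_le_mul_of_nonneg_left h7 h3

open Classical in
/-- the product of the densities -/
theorem prod_B (W b z : ℕ) {m : ℕ} (t : Fin m → ℕ) (β : ℕ)
    (hWm : ∀ p : ℕ, p.Prime → p ≤ g * m + 2 * g → p ∣ W) (hne : ∀ i, ee D W b t β i ≠ 0) :
    0 ≤ ∏ p ∈ PS W z, (1 - ((OmB F W b t β p).card : ℝ) / p) ∧
    ∏ p ∈ PS W z, (1 - ((OmB F W b t β p).card : ℝ) / p) ≤
      (∏ p ∈ PS W z, (1 - (rhoT F W b t p : ℝ) / p)) * (∏ p ∈ PS W z, (1 - (rt F p : ℝ) / (p : ℝ))) *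
        ∏ i, Gm (2 * g : ℕ) (ee D W b t β i) := by
  have hmem : ∀ p ∈ PS W z, p.Prime ∧ ¬ p ∣ W ∧ g * m + 2 * g < p := by
    intro p hp
    unfold PS at hp
    rw [mem_filter, mem_Icc] at hp
    obtain ⟨_, h1, h2⟩ := hp
    refine ⟨h1, h2, ?_⟩
    by_contra hcon
    exact h2 (hWm p h1 (not_lt.1 hcon))
  have hf : ∀ p ∈ PS W z, _ := fun p hp => fac_le hD W b t β p (hmem p hp).1 (hmem p hp).2.1
    (hmem p hp).2.2
  refine ⟨prod_nonneg fun p hp => (hf p hp).1, ?_⟩
  refine (Finset.prod_le_prod (fun p hp => (hf p hp).1) (fun p hp => (hf p hp).2)).trans ?_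
  rw [prod_mul_distrib, prod_mul_distrib, mul_assoc]
  apply mul_le_mul_of_nonneg_left _
  · apply prod_nonneg
    intro p hp
    obtain ⟨g1, g3, g4⟩ := hmem p hp
    have hp0 : (0 : ℝ) < p := by exact_mod_cast g1.pos
    have h2 := OmC_le hD W b t p g1 g3
    rw [sub_nonneg, div_le_one hp0]
    exact_mod_cast (by omega : rhoT F W b t p ≤ p)
  · apply mul_le_mul_of_nonneg_left _
    · apply prod_nonneg
      intro p hp
      obtain ⟨g1, g3, g4⟩ := hmem p hp
      have hp0 : (0 : ℝ) < p := by exact_mod_cast g1.pos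
      rw [sub_nonneg, div_le_one hp0]
      exact_mod_cast (hD.sys.root p g1).2.le
    · rw [Finset.prod_comm]
      apply Finset.prod_le_prod
      · intro i _
        apply prod_nonneg
        intro p _
        split_ifs <;> positivity
      · intro i _
        rw [← prod_filter]
        unfold Gm
        apply Finset.prod_le_prod_of_subset_of_one_le
        · intro p hp
          rw [mem_filter] at hp
          exact Nat.mem_primeFactors.2 ⟨(hmem p hp.1).1, hp.2, hne i⟩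
        · intro p _
          positivity
        · intro p _ _
          have : 0 ≤ ((2 * g : ℕ) : ℝ) / p := by positivity
          linarith

end

end Pool.Agent.V8H2.MG
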